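import Mathlib

/-!
# A summation formula for products of powers of affine forms

Let `k` be a finite field and `lam : k → k` a weight with `∑ u, lam u * u ^ e = 1 / (e + 1)` for
`e ≤ N`.  We compute the weighted sum over `k ^ n` of a product of powers of affine forms in
pairwise disjoint sets of variables.
-/

namespace Pool.Agent.Helper86Cube

open Finset

variable {k : Type*} [Field k] [Fintype k] [DecidableEq k]

omit [DecidableEq k] in
/-- The one-variable formula. -/
theorem one_var (lam : k → k) (N : ℕ) (hlam : ∀ e ≤ N, ∑ u, lam u * u ^ e = ((e : k) + 1)⁻¹)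
    (hN : ∀ e ≤ N, (e : k) + 1 ≠ 0) (A β : k) (K : ℕ) (hK : K ≤ N) :
    (∑ u, lam u * (A + β * u) ^ K) * (β * ((K : k) + 1)) = (A + β) ^ (K + 1) - A ^ (K + 1) := by
  have h1 : ∑ u, lam u * (A + β * u) ^ K
      = ∑ m ∈ range (K + 1), β ^ m * A ^ (K - m) * (K.choose m : k) * ((m : k) + 1)⁻¹ := by
    calc ∑ u, lam u * (A + β * u) ^ K
        = ∑ u, ∑ m ∈ range (K + 1), lam u * ((β * u) ^ m * A ^ (K - m) * (K.choose m : k)) := by
          refine Finset.sum_congr rfl fun u _ => ?_
          rw [add_comm A, add_pow, Finset.mul_sum]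
      _ = ∑ m ∈ range (K + 1), ∑ u, lam u * ((β * u) ^ m * A ^ (K - m) * (K.choose m : k)) :=
          Finset.sum_comm
      _ = _ := by
          refine Finset.sum_congr rfl fun m hm => ?_
          have hm' : m ≤ N := by
            have := Finset.mem_range.mp hm
            omega
          rw [← hlam m hm', Finset.mul_sum]
          refine Finset.sum_congr rfl fun u _ => ?_
          rw [mul_pow]; ring
  rw [h1, Finset.sum_mul]
  have h2 : (A + β) ^ (K + 1) = ∑ m ∈ range (K + 1),
      β ^ (m + 1) * A ^ (K - m) * ((K + 1).choose (m + 1) : k) + A ^ (K + 1) := by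
    rw [add_comm A, add_pow, Finset.sum_range_succ']
    simp
  rw [h2, add_sub_cancel_right]
  refine Finset.sum_congr rfl fun m hm => ?_
  have hm' : m ≤ N := by
    have := Finset.mem_range.mp hm
    omega
  have h3 : ((K + 1).choose (m + 1) : k) * ((m : k) + 1) = ((K : k) + 1) * (K.choose m : k) := by
    have := Nat.add_one_mul_choose_eq K m
    have h4 := congrArg (Nat.cast (R := k)) this
    push_cast at h4
    rw [h4]
  have h5 := hN m hm'
  have h6 : ((K + 1).choose (m + 1) : k) = ((K : k) + 1) * (K.choose m : k) * ((m : k) + 1)⁻¹ := by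
    rw [← h3, mul_assoc, mul_inv_cancel₀ h5, mul_one]
  rw [h6, pow_succ]
  ring

/-- Number of variables in block `j` with nonzero coefficient. -/
def blockCount {n : ℕ} {κ : Type*} [DecidableEq κ] (b : Fin n → κ) (β : Fin n → k) (j : κ) : ℕ :=
  ∑ i, if b i = j ∧ β i ≠ 0 then 1 else 0

/-- Signs of the vertices. -/
def vsign (β : k) (ε : Bool) : k := if ε then 1 else (if β = 0 then 0 else -1)

theorem block_sum {κ : Type*} [Fintype κ] [DecidableEq κ] (lam : k → k) (N : ℕ)
    (hlam : ∀ e ≤ N, ∑ u, lam u * u ^ e = ((e : k) + 1)⁻¹)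
    (hN : ∀ e ≤ N, (e : k) + 1 ≠ 0) (K : κ → ℕ) :
    ∀ (n : ℕ) (b : Fin n → κ) (α : κ → k) (β : Fin n → k),
      (∀ j, 0 < blockCount b β j → K j + blockCount b β j ≤ N + 1) →
      (∑ y : Fin n → k, (∏ i, lam (y i)) *
          ∏ j, (α j + ∑ i, if b i = j then β i * y i else 0) ^ K j) *
        ((∏ i, if β i = 0 then 1 else β i) *
          ∏ j, ∏ r ∈ range (blockCount b β j), ((K j : k) + ((r : k) + 1)))
      = ∑ ε : Fin n → Bool, (∏ i, vsign (β i) (ε i)) *
          ∏ j, (α j + ∑ i, if b i = j then (if ε i then β i else 0) else 0) ^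
            (K j + blockCount b β j) := by
  intro n
  induction n with
  | zero =>
    intro b α β _
    simp [blockCount]
  | succ n ih =>
    intro b α β hK
    set b' : Fin n → κ := fun i => b i.succ with hb'
    set β' : Fin n → k := fun i => β i.succ with hβ'
    have hcount : ∀ j, blockCount b β j
        = (if b 0 = j ∧ β 0 ≠ 0 then 1 else 0) + blockCount b' β' j := by
      intro j
      simp only [blockCount, Fin.sum_univ_succ, hb', hβ']
    have hK' : ∀ j, 0 < blockCount b' β' j → K j + blockCount b' β' j ≤ N + 1 := by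
      intro j hj
      have := hK j (by rw [hcount]; omega)
      rw [hcount] at this
      omega
    -- rewrite the sums over `Fin (n+1)`
    have hL : ∀ (g : (Fin (n + 1) → k) → k), ∑ y, g y = ∑ u : k, ∑ y' : Fin n → k, g (Fin.cons u y') := by
      intro g
      rw [← (Fin.consEquiv fun _ => k).sum_comp, Fintype.sum_prod_type]
      rfl
    have hR : ∀ (g : (Fin (n + 1) → Bool) → k), ∑ y, g y
        = ∑ u : Bool, ∑ y' : Fin n → Bool, g (Fin.cons u y') := by
      intro g
      rw [← (Fin.consEquiv fun _ => Bool).sum_comp, Fintype.sum_prod_type]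
      rfl
    rw [hL, hR]
    simp only [Fin.prod_univ_succ, Fin.sum_univ_succ, Fin.cons_zero, Fin.cons_succ]
    set αu : k → κ → k := fun u j => α j + if b 0 = j then β 0 * u else 0 with hαu
    set S : k → k := fun u => ∑ y' : Fin n → k, (∏ i, lam (y' i)) *
      ∏ j, (αu u j + ∑ i, if b' i = j then β' i * y' i else 0) ^ K j with hS
    set C' : k := (∏ i, if β' i = 0 then 1 else β' i) *
      ∏ j, ∏ r ∈ range (blockCount b' β' j), ((K j : k) + ((r : k) + 1)) with hC'
    have hIH : ∀ u, S u * C' = ∑ ε : Fin n → Bool, (∏ i, vsign (β' i) (ε i)) *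
          ∏ j, (αu u j + ∑ i, if b' i = j then (if ε i then β' i else 0) else 0) ^
            (K j + blockCount b' β' j) := fun u => ih b' (αu u) β' hK'
    have hLHS : (∑ u : k, ∑ y' : Fin n → k, (lam u * ∏ i, lam (y' i)) *
        ∏ j, (α j + ((if b 0 = j then β 0 * u else 0) +
          ∑ i, if b i.succ = j then β i.succ * y' i else 0)) ^ K j) = ∑ u, lam u * S u := by
      refine Finset.sum_congr rfl fun u _ => ?_
      rw [hS, Finset.mul_sum]
      refine Finset.sum_congr rfl fun y' _ => ?_
      rw [mul_assoc]
      congr 2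
      refine Finset.prod_congr rfl fun j _ => ?_
      simp only [hαu, hb', hβ', add_assoc]
    rw [hLHS]
    have hsum : (∑ u, lam u * S u) * C' = ∑ ε : Fin n → Bool, (∏ i, vsign (β' i) (ε i)) *
        ∑ u, lam u * ∏ j, (αu u j + ∑ i, if b' i = j then (if ε i then β' i else 0) else 0) ^
            (K j + blockCount b' β' j) := by
      rw [Finset.sum_mul]
      calc ∑ u, lam u * S u * C' = ∑ u, ∑ ε : Fin n → Bool, lam u * ((∏ i, vsign (β' i) (ε i)) *
          ∏ j, (αu u j + ∑ i, if b' i = j then (if ε i then β' i else 0) else 0) ^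
            (K j + blockCount b' β' j)) := by
            refine Finset.sum_congr rfl fun u _ => ?_
            rw [mul_assoc, hIH u, Finset.mul_sum]
        _ = _ := by
            rw [Finset.sum_comm]
            refine Finset.sum_congr rfl fun ε _ => ?_
            rw [Finset.mul_sum]
            refine Finset.sum_congr rfl fun u _ => ?_
            ring
    by_cases h0 : β 0 = 0
    · -- the variable `0` does not occur
      have hc : ∀ j, blockCount b β j = blockCount b' β' j := by
        intro j
        rw [hcount]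
        simp [h0]
      have hαu' : ∀ u, αu u = α := by
        intro u
        funext j
        simp [hαu, h0]
      have hl1 : ∑ u, lam u = 1 := by
        have := hlam 0 (Nat.zero_le _)
        simpa using this
      simp only [hc, h0, if_true, one_mul, ite_self, zero_add]
      have hgoal : (∑ u, lam u * S u) * C' = ∑ ε : Fin n → Bool, (∏ i, vsign (β' i) (ε i)) *
          ∏ j, (α j + ∑ i, if b' i = j then (if ε i then β' i else 0) else 0) ^
            (K j + blockCount b' β' j) := by
        rw [hsum]
        refine Finset.sum_congr rfl fun ε _ => ?_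
        simp only [hαu']
        rw [← Finset.sum_mul, hl1, one_mul]
      rw [← hC', hgoal]
      rw [Fintype.sum_bool]
      simp only [vsign, if_true, one_mul, Bool.false_eq_true, if_false, zero_mul,
        Finset.sum_const_zero, add_zero]
      rfl
    · -- the variable `0` occurs in block `b 0`
      have hc0 : blockCount b β (b 0) = blockCount b' β' (b 0) + 1 := by
        rw [hcount]
        simp [h0, add_comm]
      have hcj : ∀ j, j ≠ b 0 → blockCount b β j = blockCount b' β' j := by
        intro j hj
        rw [hcount]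
        have : ¬ (b 0 = j ∧ β 0 ≠ 0) := fun h => hj h.1.symm
        simp [this]
      set e0 : ℕ := K (b 0) + blockCount b' β' (b 0) with he0
      have he0N : e0 ≤ N := by
        have := hK (b 0) (by rw [hc0]; omega)
        rw [hc0] at this
        omega
      have hprod : (∏ j, ∏ r ∈ range (blockCount b β j), ((K j : k) + ((r : k) + 1)))
          = (∏ j, ∏ r ∈ range (blockCount b' β' j), ((K j : k) + ((r : k) + 1))) *
            ((e0 : k) + 1) := by
        rw [← Finset.mul_prod_erase Finset.univ _ (Finset.mem_univ (b 0)),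
          ← Finset.mul_prod_erase Finset.univ
            (fun j => ∏ r ∈ range (blockCount b' β' j), ((K j : k) + ((r : k) + 1)))
            (Finset.mem_univ (b 0)), hc0, Finset.prod_range_succ]
        have : ∏ j ∈ univ.erase (b 0), ∏ r ∈ range (blockCount b β j), ((K j : k) + ((r : k) + 1))
            = ∏ j ∈ univ.erase (b 0), ∏ r ∈ range (blockCount b' β' j),
              ((K j : k) + ((r : k) + 1)) := by
          refine Finset.prod_congr rfl fun j hj => ?_
          rw [hcj j (Finset.ne_of_mem_erase hj)]
        rw [this, he0]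
        push_cast
        ring
      rw [hprod, if_neg h0]
      have hre : (∑ u, lam u * S u) * (β 0 * (∏ i : Fin n, if β i.succ = 0 then 1 else β i.succ) *
          ((∏ j, ∏ r ∈ range (blockCount b' β' j), ((K j : k) + ((r : k) + 1))) * ((e0 : k) + 1)))
          = ((∑ u, lam u * S u) * C') * (β 0 * ((e0 : k) + 1)) := by
        rw [hC']
        ring
      rw [hre, hsum, Finset.sum_mul, Fintype.sum_bool, ← Finset.sum_add_distrib]
      refine Finset.sum_congr rfl fun ε _ => ?_
      set γ : κ → k := fun j => ∑ i, if b' i = j then (if ε i then β' i else 0) else 0 with hγ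
      set R : k := ∏ j ∈ univ.erase (b 0), (α j + γ j) ^ (K j + blockCount b' β' j) with hR'
      have hinner : ∀ u, ∏ j, (αu u j + γ j) ^ (K j + blockCount b' β' j)
          = ((α (b 0) + γ (b 0)) + β 0 * u) ^ e0 * R := by
        intro u
        rw [← Finset.mul_prod_erase Finset.univ _ (Finset.mem_univ (b 0))]
        congr 1
        · simp only [hαu, if_true, he0]
          ring
        · refine Finset.prod_congr rfl fun j hj => ?_
          have : b 0 ≠ j := (Finset.ne_of_mem_erase hj).symm
          simp only [hαu, if_neg this, add_zero]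
      have hov := one_var lam N hlam hN (α (b 0) + γ (b 0)) (β 0) e0 he0N
      have hl : (∏ i, vsign (β' i) (ε i)) * (∑ u, lam u * ∏ j, (αu u j + γ j) ^
          (K j + blockCount b' β' j)) * (β 0 * ((e0 : k) + 1))
          = (∏ i, vsign (β' i) (ε i)) * R * (((α (b 0) + γ (b 0)) + β 0) ^ (e0 + 1)
            - (α (b 0) + γ (b 0)) ^ (e0 + 1)) := by
        rw [← hov]
        have : ∑ u, lam u * ∏ j, (αu u j + γ j) ^ (K j + blockCount b' β' j)
            = R * ∑ u, lam u * ((α (b 0) + γ (b 0)) + β 0 * u) ^ e0 := by
          rw [Finset.mul_sum]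
          refine Finset.sum_congr rfl fun u _ => ?_
          rw [hinner u]; ring
        rw [this]; ring
      have hout : ∀ (δ : k), (∏ j, (α j + ((if b 0 = j then δ else 0) + γ j)) ^
          (K j + blockCount b β j)) = (α (b 0) + γ (b 0) + δ) ^ (e0 + 1) * R := by
        intro δ
        rw [← Finset.mul_prod_erase Finset.univ _ (Finset.mem_univ (b 0))]
        congr 1
        · rw [if_pos rfl, hc0, he0]
          ring
        · refine Finset.prod_congr rfl fun j hj => ?_
          have : b 0 ≠ j := (Finset.ne_of_mem_erase hj).symm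
          rw [if_neg this, zero_add, hcj j (Finset.ne_of_mem_erase hj)]
      rw [hl]
      have h1 := hout (β 0)
      have h2 := hout 0
      rw [add_zero] at h2
      simp only [if_true, Bool.false_eq_true, if_false]
      rw [h1, h2]
      simp only [vsign, if_true, Bool.false_eq_true, if_false, if_neg h0]
      ring

/-- If raising the vertex values to the power `K j` does not change them, then the weighted sum
is a quotient of products of small integers. -/
theorem block_cor {κ : Type*} [Fintype κ] [DecidableEq κ] (lam : k → k) (N : ℕ)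
    (hlam : ∀ e ≤ N, ∑ u, lam u * u ^ e = ((e : k) + 1)⁻¹)
    (hN : ∀ e ≤ N, (e : k) + 1 ≠ 0) (K : κ → ℕ)
    (n : ℕ) (b : Fin n → κ) (α : κ → k) (β : Fin n → k)
    (hK : ∀ j, 0 < blockCount b β j → K j + blockCount b β j ≤ N + 1)
    (hv : ∀ (ε : Fin n → Bool) (j : κ),
      (α j + ∑ i, if b i = j then (if ε i then β i else 0) else 0) ^ (K j + blockCount b β j)
      = (α j + ∑ i, if b i = j then (if ε i then β i else 0) else 0) ^ (blockCount b β j)) :
    (∑ y : Fin n → k, (∏ i, lam (y i)) *
          ∏ j, (α j + ∑ i, if b i = j then β i * y i else 0) ^ K j) *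
        (∏ j, ∏ r ∈ range (blockCount b β j), ((K j : k) + ((r : k) + 1)))
      = ∏ j, ∏ r ∈ range (blockCount b β j), ((r : k) + 1) := by
  have h1 := block_sum lam N hlam hN K n b α β hK
  have h2 := block_sum lam N hlam hN (fun _ : κ => 0) n b α β (fun j hj => by
    have := hK j hj
    omega)
  have h3 : ∑ y : Fin n → k, (∏ i, lam (y i)) *
      ∏ j : κ, (α j + ∑ i, if b i = j then β i * y i else 0) ^ 0 = 1 := by
    have hl1 : ∑ u, lam u = 1 := by
      have := hlam 0 (Nat.zero_le _)
      simpa using this
    have h4 : ∏ _i : Fin n, ∑ u : k, lam u = ∑ y : Fin n → k, ∏ i, lam (y i) := by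
      rw [Finset.prod_univ_sum, Fintype.piFinset_univ]
    simp only [pow_zero, Finset.prod_const_one, mul_one]
    rw [← h4, hl1, Finset.prod_const_one]
  rw [h3, one_mul] at h2
  simp only [zero_add, Nat.cast_zero] at h2
  simp only [hv] at h1
  rw [← h2] at h1
  have hP : (∏ i, if β i = 0 then (1 : k) else β i) ≠ 0 := by
    rw [Finset.prod_ne_zero_iff]
    intro i _
    split_ifs with h
    · exact one_ne_zero
    · exact h
  have h5 : (∏ i, if β i = 0 then (1 : k) else β i) *
      ((∑ y : Fin n → k, (∏ i, lam (y i)) *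
          ∏ j, (α j + ∑ i, if b i = j then β i * y i else 0) ^ K j) *
        (∏ j, ∏ r ∈ range (blockCount b β j), ((K j : k) + ((r : k) + 1))))
      = (∏ i, if β i = 0 then (1 : k) else β i) *
        ∏ j, ∏ r ∈ range (blockCount b β j), ((r : k) + 1) := by
    rw [← h1]; ring
  exact mul_left_cancel₀ hP h5

/-- The weight for `ZMod p`. -/
theorem exists_weight (p : ℕ) [Fact p.Prime] :
    ∃ lam : ZMod p → ZMod p, lam 0 = 0 ∧
      (∀ e ≤ p - 2, ∑ u, lam u * u ^ e = ((e : ZMod p) + 1)⁻¹) := by
  have hp2 : 2 ≤ p := (Fact.out : p.Prime).two_le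
  refine ⟨fun u => ∑ i ∈ range (p - 1), u ^ (i + 1) * ((i : ZMod p) + 1)⁻¹, ?_, ?_⟩
  · simp
  · intro e he
    have h1 : ∑ u : ZMod p, (∑ i ∈ range (p - 1), u ^ (i + 1) * ((i : ZMod p) + 1)⁻¹) * u ^ e
        = ∑ i ∈ range (p - 1), ((i : ZMod p) + 1)⁻¹ * ∑ u : ZMod p, u ^ (i + 1 + e) := by
      simp only [Finset.sum_mul]
      rw [Finset.sum_comm]
      refine Finset.sum_congr rfl fun i _ => ?_
      rw [Finset.mul_sum]
      refine Finset.sum_congr rfl fun u _ => ?_
      rw [pow_add]; ring
    have h2 : ∀ j : ℕ, 0 < j → ∑ u : ZMod p, u ^ j = if p - 1 ∣ j then -1 else 0 := by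
      intro j hj
      have := FiniteField.sum_pow_units (ZMod p) j
      rw [ZMod.card] at this
      rw [← this, ← Finset.sum_erase_add Finset.univ _ (Finset.mem_univ (0 : ZMod p)),
        zero_pow hj.ne', add_zero]
      symm
      refine Finset.sum_bij' (fun u _ => (u : ZMod p)) (fun u hu => Units.mk0 u (Finset.ne_of_mem_erase hu))
        ?_ ?_ ?_ ?_ ?_
      · intro u _
        exact Finset.mem_erase.mpr ⟨u.ne_zero, Finset.mem_univ _⟩
      · intro u _
        exact Finset.mem_univ _
      · intro u _
        ext; rfl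
      · intro u _
        rfl
      · intro u _
        simp
    rw [h1]
    have h3 : ∀ i ∈ range (p - 1), ((i : ZMod p) + 1)⁻¹ * ∑ u : ZMod p, u ^ (i + 1 + e)
        = if i = p - 2 - e then -((i : ZMod p) + 1)⁻¹ else 0 := by
      intro i hi
      rw [h2 _ (by omega)]
      have hi' := Finset.mem_range.mp hi
      by_cases h : i = p - 2 - e
      · have : i + 1 + e = p - 1 := by omega
        rw [this, if_pos (dvd_refl _), if_pos h]; ring
      · rw [if_neg h, if_neg, mul_zero]
        rintro ⟨q, hq⟩
        rcases q with _ | _ | q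
        · omega
        · omega
        · have : 2 * (p - 1) ≤ (p - 1) * (q + 1 + 1) := by nlinarith
          omega
    rw [Finset.sum_congr rfl h3, Finset.sum_ite_eq' , if_pos (Finset.mem_range.mpr (by omega))]
    rw [← inv_neg]
    congr 1
    have : ((p - 2 - e : ℕ) : ZMod p) + (e : ZMod p) + 2 = 0 := by
      have h4 : ((p - 2 - e + e + 2 : ℕ) : ZMod p) = 0 := by
        rw [show p - 2 - e + e + 2 = p by omega]
        exact CharP.cast_eq_zero _ _
      push_cast at h4
      exact h4
    linear_combination -this

end Pool.Agent.Helper86Cube
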