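import Pool.Agent.Helper86_Cube.Degree

/-!
# Classes of polynomials to which the criterion applies
-/

namespace Pool.Agent.Helper86Cube

open MvPolynomial

variable {n : ℕ}

/-- A single term is a product of powers of affine forms. -/
theorem isProduct_monomial (e : Fin n →₀ ℕ) (c : ℂ) : IsProductOfAffinePowers (monomial e c) := by
  classical
  refine ⟨c, id, fun _ => 0, fun _ => 1, fun j => e j, ?_⟩
  rw [monomial_eq, Finsupp.prod_fintype _ _ (fun i => pow_zero _)]
  congr 1
  refine Finset.prod_congr rfl fun j _ => ?_
  congr 1
  rw [C_0, zero_add, Finset.sum_eq_single j]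
  · rw [C_1, one_mul]
  · intro i hi hne
    exact absurd (Finset.mem_filter.mp hi).2 hne
  · intro h
    exact absurd (by simp) h

theorem isProduct_zero : IsProductOfAffinePowers (0 : MvPolynomial (Fin n) ℂ) := by
  have := isProduct_monomial (n := n) 0 0
  rwa [monomial_zero] at this

/-- A polynomial of total degree at most one is affine. -/
theorem isProduct_of_totalDegree_le_one (a : MvPolynomial (Fin n) ℂ)
    (ha : ∀ e ∈ a.support, ∑ i, e i ≤ 1) : IsProductOfAffinePowers a := by
  classical
  rcases Nat.eq_zero_or_pos n with hn | hn
  · subst hn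
    have : a = monomial 0 (coeff 0 a) := by
      ext e
      rw [Subsingleton.elim e 0, coeff_monomial, if_pos rfl]
    rw [this]
    exact isProduct_monomial _ _
  let j0 : Fin n := ⟨0, hn⟩
  refine ⟨1, fun _ => j0, fun _ => coeff 0 a, fun i => coeff (Finsupp.single i 1) a,
    fun j => if j = j0 then 1 else 0, ?_⟩
  rw [Finset.prod_eq_single j0]
  · simp only [if_pos, pow_one, C_1, one_mul, Finset.filter_true]
    ext e
    rw [coeff_add, coeff_C, coeff_sum]
    by_cases he : e = 0
    · subst he
      rw [if_pos rfl, Finset.sum_eq_zero, add_zero]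
      intro i _
      rw [coeff_C_mul, coeff_X, if_neg, mul_zero]
      intro h
      have := DFunLike.congr_fun h i
      simp at this
    · rw [if_neg (fun h => he h.symm), zero_add]
      by_cases hs : ∃ i, e = Finsupp.single i 1
      · obtain ⟨i, rfl⟩ := hs
        rw [Finset.sum_eq_single i]
        · rw [coeff_C_mul, coeff_X, if_pos rfl, mul_one]
        · intro j _ hj
          rw [coeff_C_mul, coeff_X, if_neg, mul_zero]
          intro h
          exact hj (Finsupp.single_left_injective one_ne_zero h)
        · intro h
          exact absurd (Finset.mem_univ _) h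
      · have h1 : coeff e a = 0 := by
          by_contra hne
          have h2 := ha e (mem_support_iff.mpr hne)
          obtain ⟨i, hi⟩ : ∃ i, e i ≠ 0 := by
            by_contra hall
            push Not at hall
            apply he
            ext i
            rw [hall i, Finsupp.zero_apply]
          apply hs
          refine ⟨i, ?_⟩
          have h3 : ∑ j, e j = e i + ∑ j ∈ Finset.univ.erase i, e j :=
            (Finset.add_sum_erase _ _ (Finset.mem_univ i)).symm
          ext j
          by_cases hj : j = i
          · subst hj
            rw [Finsupp.single_eq_same]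
            omega
          · rw [Finsupp.single_eq_of_ne hj]
            have h4 : e j ≤ ∑ j ∈ Finset.univ.erase i, e j :=
              Finset.single_le_sum (f := fun j => e j) (fun _ _ => Nat.zero_le _)
                (Finset.mem_erase.mpr ⟨hj, Finset.mem_univ j⟩)
            omega
        rw [h1]
        symm
        refine Finset.sum_eq_zero fun i _ => ?_
        rw [coeff_C_mul, coeff_X, if_neg, mul_zero]
        intro h
        exact hs ⟨i, h.symm⟩
  · intro j _ hj
    simp only [if_neg hj, pow_zero]
  · intro h
    exact absurd (Finset.mem_univ _) h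

/-- The exponents of the top cofactor. -/
theorem sum_exponents_topCofactor (f : MvPolynomial (Fin n) ℂ) (S : Finset (Fin n))
    (hS : S.card = topCount f) (e : Fin n →₀ ℕ) (he : e ∈ (topCofactor f S).support) :
    maxExp f * topCount f + ∑ i, e i ≤ f.totalDegree ∧ (∀ i, maxExp f ≠ 0 → e i < maxExp f) ∧
      (∀ i ∈ S, e i = 0) := by
  classical
  obtain ⟨e', he', heS, rfl⟩ := mem_support_topCofactor f S e he
  have hval : ∀ i, (e'.filter fun i => i ∉ S) i = if i ∈ S then 0 else e' i := by
    intro i
    split_ifs with hi
    · exact Finsupp.filter_apply_neg (fun i => i ∉ S) _ (by simpa using hi)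
    · exact Finsupp.filter_apply_pos (fun i => i ∉ S) _ hi
  refine ⟨?_, ?_, ?_⟩
  · have h1 : ∑ i, e' i ≤ f.totalDegree := by
      have := le_totalDegree he'
      rwa [Finsupp.sum_fintype _ _ (fun _ => rfl)] at this
    have h2 : ∑ i, e' i = ∑ i ∈ S, e' i + ∑ i, (e'.filter fun i => i ∉ S) i := by
      rw [← Finset.sum_filter_add_sum_filter_not Finset.univ (fun i => i ∈ S) (fun i => e' i)]
      congr 1
      · congr 1
        ext i
        simp
      · rw [Finset.sum_congr rfl fun i _ => hval i, Finset.sum_filter]
        refine Finset.sum_congr rfl fun i _ => ?_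
        by_cases hi : i ∈ S <;> simp [hi]
    have h3 : ∑ i ∈ S, e' i = maxExp f * topCount f := by
      rw [Finset.sum_congr rfl heS, Finset.sum_const, hS, smul_eq_mul, mul_comm]
    omega
  · intro i hD
    rw [hval]
    split_ifs with hi
    · omega
    · exact lt_maxExp_of_notMem f S hS e' he' heS i hi
  · intro i hi
    rw [hval, if_pos hi]

theorem topCount_pos (f : MvPolynomial (Fin n) ℂ) (hD : maxExp f ≠ 0) : 1 ≤ topCount f := by
  classical
  have h1 : ∃ e ∈ f.support, maxExp f ≤ Finset.univ.sup fun i => e i := by
    have := (Finset.le_sup_iff (s := f.support) (f := fun e : Fin n →₀ ℕ =>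
      Finset.univ.sup fun i => e i) (a := maxExp f) (Nat.pos_of_ne_zero hD)).mp le_rfl
    exact this
  obtain ⟨e, he, h2⟩ := h1
  obtain ⟨i, _, hi⟩ := (Finset.le_sup_iff (Nat.pos_of_ne_zero hD)).mp h2
  refine le_trans ?_ (card_le_topCount f e he)
  rw [Finset.one_le_card]
  exact ⟨i, Finset.mem_filter.mpr ⟨Finset.mem_univ i, le_antisymm (le_maxExp f e he i) hi⟩⟩

/-- If the total degree of `f` is at most `maxExp f * topCount f + 1`, then all top cofactors are
affine. -/
theorem criterion_of_totalDegree (f : MvPolynomial (Fin n) ℂ)
    (hf : f.totalDegree ≤ maxExp f * topCount f + 1) (S : Finset (Fin n))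
    (hS : S.card = topCount f) : IsProductOfAffinePowers (topCofactor f S) := by
  refine isProduct_of_totalDegree_le_one _ fun e he => ?_
  have := (sum_exponents_topCofactor f S hS e he).1
  omega

/-- If `maxExp f ≤ 1`, then all top cofactors are constant. -/
theorem criterion_of_maxExp_le_one (f : MvPolynomial (Fin n) ℂ) (hf : maxExp f ≤ 1)
    (S : Finset (Fin n)) (hS : S.card = topCount f) :
    IsProductOfAffinePowers (topCofactor f S) := by
  refine isProduct_of_totalDegree_le_one _ fun e he => ?_
  obtain ⟨_, h2, _⟩ := sum_exponents_topCofactor f S hS e he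
  have h4 : ∀ i, e i = 0 := by
    intro i
    obtain ⟨e', he', heS, rfl⟩ := mem_support_topCofactor f S e he
    by_cases hD : maxExp f = 0
    · have h3 : e' i ≤ maxExp f := le_maxExp f e' he' i
      have h5 : (e'.filter fun i => i ∉ S) i ≤ e' i := by
        by_cases hi : i ∉ S
        · rw [Finsupp.filter_apply_pos (fun i => i ∉ S) _ hi]
        · rw [Finsupp.filter_apply_neg (fun i => i ∉ S) _ hi]
          exact Nat.zero_le _
      omega
    · have := h2 i hD
      omega
  rw [Finset.sum_eq_zero fun i _ => h4 i]
  exact Nat.zero_le _

/-- Polynomials of total degree at most three. -/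
theorem criterion_of_totalDegree_le_three (f : MvPolynomial (Fin n) ℂ) (hf : f.totalDegree ≤ 3)
    (S : Finset (Fin n)) (hS : S.card = topCount f) :
    IsProductOfAffinePowers (topCofactor f S) := by
  by_cases hD : maxExp f ≤ 1
  · exact criterion_of_maxExp_le_one f hD S hS
  · refine criterion_of_totalDegree f ?_ S hS
    have h1 := topCount_pos f (by omega)
    have h2 : 2 * 1 ≤ maxExp f * topCount f := Nat.mul_le_mul (by omega) h1
    omega

/-- Polynomials in two variables of total degree at most four. -/
theorem criterion_two_vars (f : MvPolynomial (Fin 2) ℂ) (hf : f.totalDegree ≤ 4)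
    (S : Finset (Fin 2)) (hS : S.card = topCount f) :
    IsProductOfAffinePowers (topCofactor f S) := by
  by_cases hD : maxExp f ≤ 1
  · exact criterion_of_maxExp_le_one f hD S hS
  · by_cases hD2 : 3 ≤ maxExp f
    · refine criterion_of_totalDegree f ?_ S hS
      have h1 := topCount_pos f (by omega)
      have h2 : 3 * 1 ≤ maxExp f * topCount f := Nat.mul_le_mul (by omega) h1
      omega
    · refine isProduct_of_totalDegree_le_one _ fun e he => ?_
      obtain ⟨_, h2, h3⟩ := sum_exponents_topCofactor f S hS e he
      have h1 := topCount_pos f (by omega)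
      have hSne : S.Nonempty := by
        rw [← Finset.card_pos]
        omega
      obtain ⟨i, hi⟩ := hSne
      have h4 := h3 i hi
      have h5 := h2 0 (by omega)
      have h6 := h2 1 (by omega)
      rw [Fin.sum_univ_two]
      fin_cases i
      · simp only [Fin.zero_eta] at h4
        omega
      · simp only [Fin.mk_one] at h4
        omega

/-- Polynomials in two variables that have degree at most one in one of the variables. -/
theorem criterion_two_vars_linear (f : MvPolynomial (Fin 2) ℂ) (i₀ : Fin 2)
    (hf : f.degreeOf i₀ ≤ 1)
    (S : Finset (Fin 2)) (hS : S.card = topCount f) :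
    IsProductOfAffinePowers (topCofactor f S) := by
  by_cases hD : maxExp f ≤ 1
  · exact criterion_of_maxExp_le_one f hD S hS
  · refine isProduct_of_totalDegree_le_one _ fun e he => ?_
    obtain ⟨e', he', heS, rfl⟩ := mem_support_topCofactor f S e he
    have h1 := topCount_pos f (by omega)
    have hSne : S.Nonempty := by
      rw [← Finset.card_pos]
      omega
    obtain ⟨i, hi⟩ := hSne
    have h2 : e' i₀ ≤ 1 := le_trans (monomial_le_degreeOf i₀ he') hf
    have h3 := heS i hi
    have h4 : i ≠ i₀ := by
      rintro rfl
      omega
    have h5 : (e'.filter fun i => i ∉ S) i = 0 :=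
      Finsupp.filter_apply_neg (fun i => i ∉ S) _ (by simpa using hi)
    have h6 : (e'.filter fun i => i ∉ S) i₀ ≤ e' i₀ := by
      by_cases hi : i₀ ∉ S
      · rw [Finsupp.filter_apply_pos (fun i => i ∉ S) _ hi]
      · rw [Finsupp.filter_apply_neg (fun i => i ∉ S) _ hi]
        exact Nat.zero_le _
    have h7 : ∑ j, (e'.filter fun i => i ∉ S) j
        = (e'.filter fun i => i ∉ S) i + (e'.filter fun i => i ∉ S) i₀ := by
      rw [Fin.sum_univ_two]
      fin_cases i <;> fin_cases i₀ <;> simp_all [add_comm]
    omega

/-- Quasi-homogeneous polynomials in two variables. -/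
theorem criterion_two_vars_quasi (f : MvPolynomial (Fin 2) ℂ) (w : Fin 2 → ℤ) (d : ℤ)
    (hw : ∀ i, w i ≠ 0) (hf : ∀ e ∈ f.support, w 0 * (e 0 : ℤ) + w 1 * (e 1 : ℤ) = d)
    (S : Finset (Fin 2)) (hS : S.card = topCount f) :
    IsProductOfAffinePowers (topCofactor f S) := by
  classical
  by_cases hD : maxExp f ≤ 1
  · exact criterion_of_maxExp_le_one f hD S hS
  · have h1 := topCount_pos f (by omega)
    have hSne : S.Nonempty := by
      rw [← Finset.card_pos]
      omega
    obtain ⟨i, hi⟩ := hSne
    have huniq : ∀ e ∈ f.support.filter (fun e => ∀ i ∈ S, e i = maxExp f),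
        ∀ e' ∈ f.support.filter (fun e => ∀ i ∈ S, e i = maxExp f), e = e' := by
      intro e he e' he'
      rw [Finset.mem_filter] at he he'
      have h2 := hf e he.1
      have h3 := hf e' he'.1
      have h4 := he.2 i hi
      have h5 := he'.2 i hi
      have hw0 := hw 0
      have hw1 := hw 1
      fin_cases i
      · simp only [Fin.zero_eta] at h4 h5
        have h6 : w 1 * (e 1 : ℤ) = w 1 * (e' 1 : ℤ) := by
          rw [h4] at h2
          rw [h5] at h3
          linarith
        have h7 := mul_left_cancel₀ hw1 h6
        ext j
        fin_cases j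
        · simp only [Fin.zero_eta]
          omega
        · simp only [Fin.mk_one]
          omega
      · simp only [Fin.mk_one] at h4 h5
        have h6 : w 0 * (e 0 : ℤ) = w 0 * (e' 0 : ℤ) := by
          rw [h4] at h2
          rw [h5] at h3
          linarith
        have h7 := mul_left_cancel₀ hw0 h6
        ext j
        fin_cases j
        · simp only [Fin.zero_eta]
          omega
        · simp only [Fin.mk_one]
          omega
    rw [topCofactor]
    rcases (f.support.filter (fun e => ∀ i ∈ S, e i = maxExp f)).eq_empty_or_nonempty with h | h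
    · rw [h, Finset.sum_empty]
      exact isProduct_zero
    · obtain ⟨e, he⟩ := h
      have : f.support.filter (fun e => ∀ i ∈ S, e i = maxExp f) = {e} := by
        refine Finset.eq_singleton_iff_unique_mem.mpr ⟨he, fun e' he' => huniq e' he' e he⟩
      rw [this, Finset.sum_singleton]
      exact isProduct_monomial _ _

end Pool.Agent.Helper86Cube
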