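import Mathlib

/-!
# Definitions: top exponents and top cofactors of a polynomial
-/

namespace Pool.Agent.Helper86Cube

open MvPolynomial

variable {n : ℕ}

/-- The largest exponent of a single variable occurring in a monomial of `f`. -/
noncomputable def maxExp (f : MvPolynomial (Fin n) ℂ) : ℕ :=
  f.support.sup fun e => Finset.univ.sup fun i => e i

/-- The largest number of variables that have exponent exactly `maxExp f` in one and the same
monomial of `f`. -/
noncomputable def topCount (f : MvPolynomial (Fin n) ℂ) : ℕ :=
  f.support.sup fun e => (Finset.univ.filter fun i => e i = maxExp f).card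

/-- For a set `S` of variables and `D = maxExp f`: the coefficient of `∏ i ∈ S, X i ^ D` in `f`,
where `f` is regarded as a polynomial in the variables from `S` whose coefficients are
polynomials in the remaining variables. -/
noncomputable def topCofactor (f : MvPolynomial (Fin n) ℂ) (S : Finset (Fin n)) :
    MvPolynomial (Fin n) ℂ :=
  ∑ e ∈ f.support.filter (fun e => ∀ i ∈ S, e i = maxExp f),
    monomial (e.filter fun i => i ∉ S) (coeff e f)

/-- `a` is a constant times a product of powers of affine forms in pairwise disjoint sets of
variables: the variable `X i` may occur only in the form with index `b i`. -/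
def IsProductOfAffinePowers (a : MvPolynomial (Fin n) ℂ) : Prop :=
  ∃ (c : ℂ) (b : Fin n → Fin n) (α β : Fin n → ℂ) (k : Fin n → ℕ),
    a = C c * ∏ j, (C (α j) + ∑ i with b i = j, C (β i) * X i) ^ k j

end Pool.Agent.Helper86Cube
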