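import Pool.Agent.Helper86_Cube.Top

/-!
# Degrees of the top cofactors
-/

namespace Pool.Agent.Helper86Cube

open MvPolynomial

variable {n : ℕ}

theorem le_maxExp (f : MvPolynomial (Fin n) ℂ) (e : Fin n →₀ ℕ) (he : e ∈ f.support) (i : Fin n) :
    e i ≤ maxExp f := by
  refine le_trans ?_ (Finset.le_sup (f := fun e : Fin n →₀ ℕ => Finset.univ.sup fun i => e i) he)
  exact Finset.le_sup (f := fun i => e i) (Finset.mem_univ i)

theorem card_le_topCount (f : MvPolynomial (Fin n) ℂ) (e : Fin n →₀ ℕ) (he : e ∈ f.support) :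
    (Finset.univ.filter fun i => e i = maxExp f).card ≤ topCount f :=
  Finset.le_sup (f := fun e : Fin n →₀ ℕ => (Finset.univ.filter fun i => e i = maxExp f).card) he

/-- If a monomial of `f` has exponent `maxExp f` at all variables of a set `S` with
`topCount f` elements, then it has a smaller exponent at the other variables. -/
theorem lt_maxExp_of_notMem (f : MvPolynomial (Fin n) ℂ) (S : Finset (Fin n))
    (hS : S.card = topCount f) (e : Fin n →₀ ℕ) (he : e ∈ f.support)
    (heS : ∀ i ∈ S, e i = maxExp f) (i : Fin n) (hi : i ∉ S) : e i < maxExp f := by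
  classical
  refine lt_of_le_of_ne (le_maxExp f e he i) fun h => ?_
  have h1 := card_le_topCount f e he
  have h2 : insert i S ⊆ Finset.univ.filter fun i => e i = maxExp f := by
    intro j hj
    rw [Finset.mem_filter]
    refine ⟨Finset.mem_univ j, ?_⟩
    rcases Finset.mem_insert.mp hj with rfl | hj
    · exact h
    · exact heS j hj
  have h3 := Finset.card_le_card h2
  rw [Finset.card_insert_of_notMem hi] at h3
  omega

theorem mem_support_topCofactor (f : MvPolynomial (Fin n) ℂ) (S : Finset (Fin n))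
    (e : Fin n →₀ ℕ) (he : e ∈ (topCofactor f S).support) :
    ∃ e' ∈ f.support, (∀ i ∈ S, e' i = maxExp f) ∧ e = e'.filter fun i => i ∉ S := by
  classical
  rw [topCofactor] at he
  have h1 := support_sum he
  rw [Finset.mem_biUnion] at h1
  obtain ⟨e', he', h2⟩ := h1
  rw [Finset.mem_filter] at he'
  refine ⟨e', he'.1, he'.2, ?_⟩
  have h3 := support_monomial_subset h2
  exact Finset.mem_singleton.mp h3

theorem coeff_affine (b : Fin n → Fin n) (α β : Fin n → ℂ) (i : Fin n) :
    coeff (Finsupp.single i 1) (C (α (b i)) + ∑ i' with b i' = b i, C (β i') * X i')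
      = β i := by
  classical
  rw [coeff_add, coeff_C, if_neg, zero_add, coeff_sum, Finset.sum_eq_single i]
  · rw [coeff_C_mul, coeff_X, if_pos rfl, mul_one]
  · intro j _ hj
    rw [coeff_C_mul, coeff_X, if_neg, mul_zero]
    intro h
    exact hj (Finsupp.single_left_injective one_ne_zero h)
  · intro h
    exact absurd (by simp) h
  · intro h
    have := DFunLike.congr_fun h i
    simp at this

theorem exponent_lt (f : MvPolynomial (Fin n) ℂ) (S : Finset (Fin n))
    (hS : S.card = topCount f) (ha : topCofactor f S ≠ 0) (c : ℂ) (b : Fin n → Fin n)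
    (α β : Fin n → ℂ) (k : Fin n → ℕ)
    (hrep : topCofactor f S = C c * ∏ j, (C (α j) + ∑ i with b i = j, C (β i) * X i) ^ k j)
    (hD : 0 < maxExp f) (i : Fin n) (hβ : β i ≠ 0) : k (b i) < maxExp f := by
  classical
  by_contra hk
  rw [not_lt] at hk
  have hprod : ∏ j, (C (α j) + ∑ i with b i = j, C (β i) * X i : MvPolynomial (Fin n) ℂ) ^ k j
      ≠ 0 := by
    intro h
    rw [hrep, h, mul_zero] at ha
    exact ha rfl
  have hc : (C c : MvPolynomial (Fin n) ℂ) ≠ 0 := by
    intro h
    rw [hrep, h, zero_mul] at ha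
    exact ha rfl
  have hfac : ∀ j ∈ (Finset.univ : Finset (Fin n)),
      (C (α j) + ∑ i with b i = j, C (β i) * X i : MvPolynomial (Fin n) ℂ) ^ k j ≠ 0 := by
    intro j hj
    exact (Finset.prod_ne_zero_iff.mp hprod) j hj
  have hlin : (C (α (b i)) + ∑ i' with b i' = b i, C (β i') * X i' : MvPolynomial (Fin n) ℂ)
      ≠ 0 := by
    intro h
    have h1 := coeff_affine b α β i
    rw [h, coeff_zero] at h1
    exact hβ h1.symm
  have hdeg1 : 1 ≤ degreeOf i
      (C (α (b i)) + ∑ i' with b i' = b i, C (β i') * X i' : MvPolynomial (Fin n) ℂ) := by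
    have h1 : Finsupp.single i 1 ∈
        (C (α (b i)) + ∑ i' with b i' = b i, C (β i') * X i' : MvPolynomial (Fin n) ℂ).support := by
      rw [mem_support_iff, coeff_affine]
      exact hβ
    have h2 := monomial_le_degreeOf i h1
    rw [Finsupp.single_eq_same] at h2
    exact h2
  have hdeg : maxExp f ≤ degreeOf i (topCofactor f S) := by
    rw [hrep, degreeOf_mul_eq hc hprod, degreeOf_prod_eq _ _ hfac]
    refine le_trans ?_ (Nat.le_add_left _ _)
    refine le_trans ?_ (Finset.single_le_sum (f := fun j => degreeOf i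
      ((C (α j) + ∑ i with b i = j, C (β i) * X i : MvPolynomial (Fin n) ℂ) ^ k j))
      (fun _ _ => Nat.zero_le _) (Finset.mem_univ (b i)))
    rw [degreeOf_pow_eq _ _ _ hlin]
    calc maxExp f ≤ k (b i) := hk
      _ = k (b i) * 1 := (mul_one _).symm
      _ ≤ _ := Nat.mul_le_mul_left _ hdeg1
  rw [degreeOf_eq_sup] at hdeg
  obtain ⟨e, he, hei⟩ := (Finset.le_sup_iff (by simpa using hD)).mp hdeg
  obtain ⟨e', he', heS, rfl⟩ := mem_support_topCofactor f S e he
  have hi : i ∉ S := by
    intro hi
    rw [Finsupp.filter_apply_neg (fun i => i ∉ S) _ (by simpa using hi)] at hei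
    omega
  rw [Finsupp.filter_apply_pos (fun i => i ∉ S) _ hi] at hei
  have := lt_maxExp_of_notMem f S hS e' he' heS i hi
  omega

end Pool.Agent.Helper86Cube
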