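import Pool.Agent.Helper86_Cube.Reduce
import Pool.Agent.Helper86_Cube.Block

/-!
# Grouping the surviving monomials by their set of top variables
-/

namespace Pool.Agent.Helper86Cube

open MvPolynomial

variable {n : ℕ} {p : ℕ} [Fact p.Prime] {R : Type*} [CommRing R]

theorem topPart_eq_zero (S : Finset (Fin n)) (D s : ℕ) (f : MvPolynomial (Fin n) R)
    (hf2 : ∀ e ∈ f.support, (Finset.univ.filter fun i => e i = D).card ≤ s) (hS : s < S.card) :
    topPart S D f = 0 := by
  classical
  ext e
  rw [coeff_topPart, coeff_zero]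
  split_ifs with h
  · by_contra hne
    have h1 := hf2 e (mem_support_iff.mpr hne)
    have h2 : S ⊆ Finset.univ.filter fun i => e i = D := fun i hi =>
      Finset.mem_filter.mpr ⟨Finset.mem_univ i, h i hi⟩
    have h3 := Finset.card_le_card h2
    omega
  · rfl

theorem count_le (f : MvPolynomial (Fin n) R) (D s m : ℕ) (hm : 0 < m)
    (hf1 : ∀ e ∈ f.support, ∀ i, e i ≤ D)
    (hf2 : ∀ e ∈ f.support, (Finset.univ.filter fun i => e i = D).card ≤ s) :
    ∀ e ∈ (f ^ m).support, (Finset.univ.filter fun i => e i = D * m).card ≤ s := by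
  intro e he
  by_contra hlt
  rw [not_le] at hlt
  have h1 := topPart_eq_zero (Finset.univ.filter fun i => e i = D * m) D s f hf2 hlt
  have h2 := coeff_topPart_pow (Finset.univ.filter fun i => e i = D * m) D f
    (fun e he i _ => hf1 e he i) m e
  rw [h1, zero_pow hm.ne', coeff_zero, if_pos] at h2
  · exact (mem_support_iff.mp he) h2.symm
  · intro i hi
    exact (Finset.mem_filter.mp hi).2

theorem grouped (φ : R →+* ZMod p) (f : MvPolynomial (Fin n) R) (D m s : ℕ)
    (hm : 0 < m)
    (hf1 : ∀ e ∈ f.support, ∀ i, e i ≤ D)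
    (hf2 : ∀ e ∈ f.support, (Finset.univ.filter fun i => e i = D).card ≤ s)
    (Mom : (Fin n →₀ ℕ) → ZMod p) :
    ∑ e ∈ (f ^ m).support, (if (Finset.univ.filter fun i => e i = D * m).card = s then
      φ (coeff e (f ^ m)) * Mom e else 0)
    = ∑ S ∈ Finset.powersetCard s (Finset.univ : Finset (Fin n)),
        ∑ e ∈ ((topPart S D (map φ f)) ^ m).support,
          coeff e ((topPart S D (map φ f)) ^ m) * Mom e := by
  classical
  have hcoeff : ∀ (S : Finset (Fin n)) (e : Fin n →₀ ℕ),
      coeff e ((topPart S D (map φ f)) ^ m)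
        = if ∀ i ∈ S, e i = D * m then φ (coeff e (f ^ m)) else 0 := by
    intro S e
    rw [topPart_map, ← map_pow, coeff_map, coeff_topPart_pow S D f (fun e he i _ => hf1 e he i)]
    split_ifs
    · rfl
    · rw [map_zero]
  have hsub : ∀ S : Finset (Fin n),
      ∑ e ∈ ((topPart S D (map φ f)) ^ m).support,
          coeff e ((topPart S D (map φ f)) ^ m) * Mom e
      = ∑ e ∈ (f ^ m).support, coeff e ((topPart S D (map φ f)) ^ m) * Mom e := by
    intro S
    refine Finset.sum_subset ?_ ?_
    · intro e he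
      rw [mem_support_iff] at he ⊢
      intro h
      apply he
      rw [hcoeff, h, map_zero, ite_self]
    · intro e _ he
      rw [notMem_support_iff.mp he, zero_mul]
  rw [Finset.sum_congr rfl fun S _ => hsub S, Finset.sum_comm]
  refine Finset.sum_congr rfl fun e he => ?_
  have hcount := count_le f D s m hm hf1 hf2 e he
  split_ifs with h
  · rw [Finset.sum_eq_single (Finset.univ.filter fun i => e i = D * m)]
    · rw [hcoeff, if_pos]
      intro i hi
      exact (Finset.mem_filter.mp hi).2
    · intro S hS hne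
      rw [hcoeff, if_neg, zero_mul]
      intro hall
      apply hne
      refine Finset.eq_of_subset_of_card_le ?_ ?_
      · intro i hi
        exact Finset.mem_filter.mpr ⟨Finset.mem_univ i, hall i hi⟩
      · rw [h, (Finset.mem_powersetCard.mp hS).2]
    · intro hnot
      exact absurd (Finset.mem_powersetCard.mpr ⟨Finset.subset_univ _, h⟩) hnot
  · symm
    refine Finset.sum_eq_zero fun S hS => ?_
    rw [hcoeff, if_neg, zero_mul]
    intro hall
    apply h
    refine le_antisymm hcount ?_
    rw [← (Finset.mem_powersetCard.mp hS).2]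
    refine Finset.card_le_card fun i hi => ?_
    exact Finset.mem_filter.mpr ⟨Finset.mem_univ i, hall i hi⟩

/-- The functional of a power of a product of affine forms times the top monomial. -/
theorem functional_product (lam : ZMod p → ZMod p) (h0 : lam 0 = 0)
    (hlam : ∀ e ≤ p - 2, ∑ u, lam u * u ^ e = ((e : ZMod p) + 1)⁻¹)
    (S : Finset (Fin n)) (D m : ℕ) (hDm : D * m = p - 1)
    (G : MvPolynomial (Fin n) (ZMod p)) (c : ZMod p) (b : Fin n → Fin n) (α : Fin n → ZMod p)
    (β : Fin n → ZMod p) (k : Fin n → ℕ)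
    (hG : G = (∏ i ∈ S, X i ^ D) * (C c *
      ∏ j, (C (α j) + ∑ i with b i = j, C (β i) * X i) ^ k j))
    (hc : c ^ m = 1)
    (hK : ∀ j, 0 < blockCount b β j → k j * m + blockCount b β j ≤ p - 1)
    (hv : ∀ (ε : Fin n → Bool) (j : Fin n),
      (α j + ∑ i, if b i = j then (if ε i then β i else 0) else 0) ^ (k j * m + blockCount b β j)
      = (α j + ∑ i, if b i = j then (if ε i then β i else 0) else 0) ^ (blockCount b β j)) :
    (∑ y : Fin n → ZMod p, (∏ i, lam (y i)) * eval y (G ^ m)) *
        (∏ j, ∏ r ∈ Finset.range (blockCount b β j), ((D : ZMod p) * ((r : ZMod p) + 1) - k j))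
      = ∏ j, ∏ r ∈ Finset.range (blockCount b β j), ((D : ZMod p) * ((r : ZMod p) + 1)) := by
  have hpp : p.Prime := Fact.out
  have hp2 := hpp.two_le
  have hN : ∀ e ≤ p - 2, (e : ZMod p) + 1 ≠ 0 := by
    intro e he hz
    have : ((e + 1 : ℕ) : ZMod p) = 0 := by push_cast; exact hz
    rw [ZMod.natCast_eq_zero_iff] at this
    have := Nat.le_of_dvd (Nat.succ_pos e) this
    omega
  have hcor := block_cor lam (p - 2) hlam hN (fun j => k j * m) n b α β
    (fun j hj => by have := hK j hj; omega) hv
  have heval : ∑ y : Fin n → ZMod p, (∏ i, lam (y i)) * eval y (G ^ m)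
      = ∑ y : Fin n → ZMod p, (∏ i, lam (y i)) *
          ∏ j, (α j + ∑ i, if b i = j then β i * y i else 0) ^ (k j * m) := by
    refine Finset.sum_congr rfl fun y _ => ?_
    by_cases hy : ∃ i, y i = 0
    · obtain ⟨i, hi⟩ := hy
      rw [Finset.prod_eq_zero (Finset.mem_univ i) (by rw [hi, h0]), zero_mul, zero_mul]
    · have hy' : ∀ i, y i ≠ 0 := fun i hi => hy ⟨i, hi⟩
      congr 1
      rw [map_pow, hG, map_mul, map_mul, map_prod, map_prod, mul_pow, mul_pow, eval_C, hc, one_mul,
        ← Finset.prod_pow, ← Finset.prod_pow]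
      have h1 : ∏ i ∈ S, (eval y) (X i ^ D) ^ m = 1 := by
        refine Finset.prod_eq_one fun i _ => ?_
        rw [map_pow, eval_X, ← pow_mul, hDm, ZMod.pow_card_sub_one_eq_one (hy' i)]
      rw [h1, one_mul]
      refine Finset.prod_congr rfl fun j _ => ?_
      rw [map_pow, ← pow_mul, map_add, eval_C, map_sum, Finset.sum_filter]
      congr 2
      refine Finset.sum_congr rfl fun i _ => ?_
      split_ifs
      · rw [map_mul, eval_C, eval_X]
      · rfl
  rw [heval]
  have hDK : ∀ j, ∀ r : ℕ, (D : ZMod p) * ((r : ZMod p) + 1) - k j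
      = (D : ZMod p) * (((k j * m : ℕ) : ZMod p) + ((r : ZMod p) + 1)) := by
    intro j r
    have h1 : (D : ZMod p) * (m : ZMod p) = -1 := by
      have h2 : ((D * m : ℕ) : ZMod p) = ((p - 1 : ℕ) : ZMod p) := by rw [hDm]
      rw [Nat.cast_mul, Nat.cast_sub (by omega), ZMod.natCast_self, Nat.cast_one, zero_sub] at h2
      exact h2
    rw [Nat.cast_mul]
    linear_combination (-(k j : ZMod p)) * h1
  have h2 : ∏ j, ∏ r ∈ Finset.range (blockCount b β j), ((D : ZMod p) * ((r : ZMod p) + 1) - k j)
      = (∏ j, ∏ r ∈ Finset.range (blockCount b β j), (D : ZMod p)) *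
        ∏ j, ∏ r ∈ Finset.range (blockCount b β j), (((k j * m : ℕ) : ZMod p) + ((r : ZMod p) + 1)) := by
    rw [← Finset.prod_mul_distrib]
    refine Finset.prod_congr rfl fun j _ => ?_
    rw [← Finset.prod_mul_distrib]
    exact Finset.prod_congr rfl fun r _ => hDK j r
  have h3 : ∏ j, ∏ r ∈ Finset.range (blockCount b β j), ((D : ZMod p) * ((r : ZMod p) + 1))
      = (∏ j, ∏ r ∈ Finset.range (blockCount b β j), (D : ZMod p)) *
        ∏ j, ∏ r ∈ Finset.range (blockCount b β j), ((r : ZMod p) + 1) := by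
    rw [← Finset.prod_mul_distrib]
    refine Finset.prod_congr rfl fun j _ => ?_
    rw [← Finset.prod_mul_distrib]
  rw [h2, h3, ← hcor]
  ring

end Pool.Agent.Helper86Cube
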