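import Mathlib

/-!
# The integral of a polynomial over the unit cube
-/

namespace Pool.Agent.Helper86Cube

open MvPolynomial MeasureTheory

variable {n : ℕ}

theorem cube_eq : Set.Icc (0 : Fin n → ℝ) 1 = Set.univ.pi fun _ => Set.Icc (0 : ℝ) 1 := by
  rw [Set.pi_univ_Icc]
  rfl

theorem integral_pow_Icc (k : ℕ) :
    ∫ x in Set.Icc (0 : ℝ) 1, ((x : ℝ) : ℂ) ^ k = ((k : ℂ) + 1)⁻¹ := by
  rw [MeasureTheory.integral_Icc_eq_integral_Ioc,
    ← intervalIntegral.integral_of_le zero_le_one]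
  have h : ∀ x : ℝ, ((x : ℝ) : ℂ) ^ k = ((x ^ k : ℝ) : ℂ) := fun x => by push_cast; rfl
  simp_rw [h]
  rw [intervalIntegral.integral_ofReal, integral_pow]
  push_cast
  rw [one_pow, zero_pow (Nat.succ_ne_zero k), sub_zero, one_div]

theorem integrable_pow_Icc (k : ℕ) :
    Integrable (fun x : ℝ => ((x : ℝ) : ℂ) ^ k) (volume.restrict (Set.Icc (0 : ℝ) 1)) := by
  have : Continuous fun x : ℝ => ((x : ℝ) : ℂ) ^ k := by fun_prop
  exact this.integrableOn_Icc

theorem integral_monomial (e : Fin n →₀ ℕ) :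
    ∫ x in Set.Icc (0 : Fin n → ℝ) 1, ∏ i, ((x i : ℝ) : ℂ) ^ e i = ∏ i, ((e i : ℂ) + 1)⁻¹ := by
  rw [cube_eq, volume_pi, Measure.restrict_pi_pi]
  rw [integral_fintype_prod_eq_prod (fun i (t : ℝ) => ((t : ℝ) : ℂ) ^ e i)]
  exact Finset.prod_congr rfl fun i _ => integral_pow_Icc (e i)

theorem integrable_monomial (e : Fin n →₀ ℕ) :
    IntegrableOn (fun x : Fin n → ℝ => ∏ i, ((x i : ℝ) : ℂ) ^ e i)
      (Set.Icc (0 : Fin n → ℝ) 1) := by
  have : Continuous fun x : Fin n → ℝ => ∏ i, ((x i : ℝ) : ℂ) ^ e i := by fun_prop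
  exact this.continuousOn.integrableOn_compact isCompact_Icc

/-- The integral of a polynomial over the unit cube. -/
theorem integral_cube (g : MvPolynomial (Fin n) ℂ) :
    ∫ x in Set.Icc (0 : Fin n → ℝ) 1, eval (fun i => ((x i : ℝ) : ℂ)) g
      = ∑ e ∈ g.support, coeff e g * ∏ i, ((e i : ℂ) + 1)⁻¹ := by
  simp_rw [eval_eq']
  rw [integral_finsetSum]
  · refine Finset.sum_congr rfl fun e _ => ?_
    rw [integral_const_mul, integral_monomial]
  · intro e _
    exact (integrable_monomial e).const_mul _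

end Pool.Agent.Helper86Cube
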