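import Pool.Agent.Helper86_Cube.Top

/-!
# Reduction of the moment equation modulo a prime
-/

namespace Pool.Agent.Helper86Cube

open MvPolynomial

variable {n : ℕ} {p : ℕ} [Fact p.Prime]

/-- The functional attached to a weight on `ZMod p`. -/
theorem functional_eq (lam : ZMod p → ZMod p) (G : MvPolynomial (Fin n) (ZMod p)) :
    ∑ y : Fin n → ZMod p, (∏ i, lam (y i)) * eval y G
      = ∑ e ∈ G.support, coeff e G * ∏ i, ∑ u, lam u * u ^ e i := by
  simp_rw [eval_eq', Finset.mul_sum]
  rw [Finset.sum_comm]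
  refine Finset.sum_congr rfl fun e _ => ?_
  rw [Finset.prod_univ_sum, Fintype.piFinset_univ, Finset.mul_sum]
  refine Finset.sum_congr rfl fun y _ => ?_
  rw [Finset.prod_mul_distrib]
  ring

/-- The integer `(p-1)!/(k+1)` or, for `k = p - 1`, the integer `(p-1)!`. -/
def wgt (p k : ℕ) : ℕ := if k = p - 1 then (p - 1).factorial else (p - 1).factorial / (k + 1)

theorem wgt_complex (k : ℕ) (hk : k ≤ p - 1) :
    ((wgt p k : ℕ) : ℂ) = ((p - 1).factorial : ℂ) * ((k : ℂ) + 1)⁻¹ *
      (if k = p - 1 then (p : ℂ) else 1) := by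
  have hp : 0 < p := (Fact.out : p.Prime).pos
  have hk0 : ((k : ℂ) + 1) ≠ 0 := by exact_mod_cast Nat.succ_ne_zero k
  unfold wgt
  split_ifs with h
  · have : (p : ℂ) = (k : ℂ) + 1 := by
      have : p = k + 1 := by omega
      exact_mod_cast this
    rw [this, mul_assoc, inv_mul_cancel₀ hk0, mul_one]
  · have hdvd : (k + 1) ∣ (p - 1).factorial := Nat.dvd_factorial (Nat.succ_pos k) (by omega)
    rw [Nat.cast_div hdvd (by exact_mod_cast Nat.succ_ne_zero k), mul_one]
    push_cast
    rw [div_eq_mul_inv]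

theorem moment_top (lam : ZMod p → ZMod p) (h0 : lam 0 = 0)
    (hlam : ∀ e ≤ p - 2, ∑ u, lam u * u ^ e = ((e : ZMod p) + 1)⁻¹) :
    ∑ u, lam u * u ^ (p - 1) = 1 := by
  have h1 := hlam 0 (Nat.zero_le _)
  rw [Nat.cast_zero, zero_add, inv_one] at h1
  rw [← h1]
  refine Finset.sum_congr rfl fun u _ => ?_
  by_cases hu : u = 0
  · rw [hu, h0]; ring
  · rw [ZMod.pow_card_sub_one_eq_one hu, pow_zero]

theorem wgt_zmod (lam : ZMod p → ZMod p) (h0 : lam 0 = 0)
    (hlam : ∀ e ≤ p - 2, ∑ u, lam u * u ^ e = ((e : ZMod p) + 1)⁻¹) (k : ℕ) (hk : k ≤ p - 1) :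
    ((wgt p k : ℕ) : ZMod p) = - ∑ u, lam u * u ^ k := by
  have hpp : p.Prime := Fact.out
  have hp2 := hpp.two_le
  unfold wgt
  split_ifs with h
  · rw [ZMod.wilsons_lemma, h, moment_top lam h0 hlam]
  · have hdvd : (k + 1) ∣ (p - 1).factorial := Nat.dvd_factorial (Nat.succ_pos k) (by omega)
    have hk1 : ((k : ZMod p) + 1) ≠ 0 := by
      intro hz
      have : ((k + 1 : ℕ) : ZMod p) = 0 := by push_cast; exact hz
      rw [ZMod.natCast_eq_zero_iff] at this
      have := Nat.le_of_dvd (Nat.succ_pos k) this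
      omega
    rw [hlam k (by omega), eq_neg_iff_add_eq_zero]
    have h2 : (((p - 1).factorial / (k + 1) : ℕ) : ZMod p) * ((k : ZMod p) + 1) = -1 := by
      rw [← ZMod.wilsons_lemma]
      have := Nat.div_mul_cancel hdvd
      exact_mod_cast congrArg (Nat.cast : ℕ → ZMod p) this
    have h3 : ((((p - 1).factorial / (k + 1) : ℕ) : ZMod p) + ((k : ZMod p) + 1)⁻¹)
        * ((k : ZMod p) + 1) = 0 := by
      rw [add_mul, h2, inv_mul_cancel₀ hk1]
      ring
    exact (mul_eq_zero.mp h3).resolve_right hk1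

/-- Reduction modulo `p` of the vanishing of the integral of `g`: only the monomials that have the
largest possible number `s` of exponents equal to `p - 1` survive. -/
theorem reduction {R : Type*} [CommRing R] (ι : R →+* ℂ) (hι : Function.Injective ι)
    (φ : R →+* ZMod p) (lam : ZMod p → ZMod p) (h0 : lam 0 = 0)
    (hlam : ∀ e ≤ p - 2, ∑ u, lam u * u ^ e = ((e : ZMod p) + 1)⁻¹)
    (g : MvPolynomial (Fin n) R) (s : ℕ)
    (hg1 : ∀ e ∈ g.support, ∀ i, e i ≤ p - 1)
    (hg2 : ∀ e ∈ g.support, (Finset.univ.filter fun i => e i = p - 1).card ≤ s)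
    (hint : ∑ e ∈ g.support, ι (coeff e g) * ∏ i, ((e i : ℂ) + 1)⁻¹ = 0) :
    ∑ e ∈ g.support, (if (Finset.univ.filter fun i => e i = p - 1).card = s then
      φ (coeff e g) * ∏ i, ∑ u, lam u * u ^ e i else 0) = 0 := by
  classical
  have hp0 : (p : ℂ) ≠ 0 := by exact_mod_cast (Fact.out : p.Prime).ne_zero
  -- the integers by which we multiply
  let N : (Fin n →₀ ℕ) → ℕ := fun e =>
    p ^ (s - (Finset.univ.filter fun i => e i = p - 1).card) * ∏ i, wgt p (e i)
  have hN : ∀ e ∈ g.support, ((N e : ℕ) : ℂ)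
      = ((p : ℂ) ^ s * ((p - 1).factorial : ℂ) ^ n) * ∏ i, ((e i : ℂ) + 1)⁻¹ := by
    intro e he
    have h1 : ((∏ i, wgt p (e i) : ℕ) : ℂ) = ((p - 1).factorial : ℂ) ^ n *
        (∏ i, ((e i : ℂ) + 1)⁻¹) *
          (p : ℂ) ^ (Finset.univ.filter fun i => e i = p - 1).card := by
      push_cast
      rw [Finset.prod_congr rfl fun i _ => wgt_complex (e i) (hg1 e he i),
        Finset.prod_mul_distrib, Finset.prod_mul_distrib, Finset.prod_const,
        Finset.card_univ, Fintype.card_fin, ← Finset.prod_filter, Finset.prod_const]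
    have h2 : ((N e : ℕ) : ℂ)
        = (p : ℂ) ^ (s - (Finset.univ.filter fun i => e i = p - 1).card) *
          ((∏ i, wgt p (e i) : ℕ) : ℂ) := by
      simp only [N]
      push_cast
      rfl
    rw [h2, h1]
    have h3 : (p : ℂ) ^ s = (p : ℂ) ^ (s - (Finset.univ.filter fun i => e i = p - 1).card) *
        (p : ℂ) ^ (Finset.univ.filter fun i => e i = p - 1).card := by
      rw [← pow_add, Nat.sub_add_cancel (hg2 e he)]
    rw [h3]
    ring
  have h1 : ι (∑ e ∈ g.support, coeff e g * (N e : R)) = 0 := by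
    rw [map_sum]
    calc ∑ e ∈ g.support, ι (coeff e g * (N e : R))
        = ∑ e ∈ g.support, ((p : ℂ) ^ s * ((p - 1).factorial : ℂ) ^ n) *
            (ι (coeff e g) * ∏ i, ((e i : ℂ) + 1)⁻¹) := by
          refine Finset.sum_congr rfl fun e he => ?_
          rw [map_mul, map_natCast, hN e he]
          ring
      _ = 0 := by rw [← Finset.mul_sum, hint, mul_zero]
  have h2 : ∑ e ∈ g.support, coeff e g * (N e : R) = 0 := by
    apply hι
    rw [h1, map_zero]
  have h3 : ∑ e ∈ g.support, φ (coeff e g) * ((N e : ℕ) : ZMod p) = 0 := by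
    have := congrArg φ h2
    rw [map_sum, map_zero] at this
    rw [← this]
    refine Finset.sum_congr rfl fun e _ => ?_
    rw [map_mul, map_natCast]
  have h4 : ∀ e ∈ g.support, (if (Finset.univ.filter fun i => e i = p - 1).card = s then
      φ (coeff e g) * ∏ i, ∑ u, lam u * u ^ e i else 0)
      = (-1) ^ n * (φ (coeff e g) * ((N e : ℕ) : ZMod p)) := by
    intro e he
    have h5 : ((∏ i, wgt p (e i) : ℕ) : ZMod p)
        = (-1) ^ n * ∏ i, ∑ u, lam u * u ^ e i := by
      push_cast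
      rw [Finset.prod_congr rfl fun i _ => wgt_zmod lam h0 hlam (e i) (hg1 e he i),
        Finset.prod_neg, Finset.card_univ, Fintype.card_fin]
    have h6 : ((N e : ℕ) : ZMod p)
        = (p : ZMod p) ^ (s - (Finset.univ.filter fun i => e i = p - 1).card) *
          ((∏ i, wgt p (e i) : ℕ) : ZMod p) := by
      simp only [N]
      push_cast
      rfl
    have h7 : ((-1 : ZMod p)) ^ n * (-1) ^ n = 1 := by
      rw [← mul_pow]; norm_num
    rw [h6, h5]
    split_ifs with h
    · rw [h, Nat.sub_self, pow_zero, one_mul]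
      calc φ (coeff e g) * ∏ i, ∑ u, lam u * u ^ e i
          = ((-1 : ZMod p) ^ n * (-1) ^ n) * (φ (coeff e g) * ∏ i, ∑ u, lam u * u ^ e i) := by
            rw [h7, one_mul]
        _ = _ := by ring
    · have h8 := hg2 e he
      have h9 : s - (Finset.univ.filter fun i => e i = p - 1).card ≠ 0 := by omega
      rw [ZMod.natCast_self, zero_pow h9]
      ring
  rw [Finset.sum_congr rfl h4, ← Finset.mul_sum, h3, mul_zero]

end Pool.Agent.Helper86Cube
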