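import Pool.Agent.Helper86_Cube.Specialize
import Pool.Agent.Helper86_Cube.Block
import Pool.Agent.Helper86_Cube.Degree
import Pool.Agent.Helper86_Cube.Integral
import Pool.Agent.Helper86_Cube.Reduce
import Pool.Agent.Helper86_Cube.Group

/-!
# Powers of a polynomial with nonvanishing integral over the cube
-/

namespace Pool.Agent.Helper86Cube

open MvPolynomial MeasureTheory

variable {n : ℕ}

/-- The specialization lemma in the form used below. -/
theorem exists_prime_subring (A : Set ℂ) (hA : A.Finite) (B : ℕ) :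
    ∃ p : ℕ, p.Prime ∧ B < p ∧ ∃ R : Subring ℂ, A ⊆ R ∧ Nonempty (R →+* ZMod p) := by
  obtain ⟨p, hp, hB, hφ⟩ := exists_prime_ringHom hA.toFinset B
  refine ⟨p, hp, hB, Subring.closure (hA.toFinset : Set ℂ), ?_, hφ⟩
  rw [hA.coe_toFinset]
  exact Subring.subset_closure

/-- If a subring of `ℂ` that contains a primitive `D`-th root of unity `ζ` and the inverses of all
`1 - ζ ^ j` maps to `ZMod p`, then `D` divides `p - 1`. -/
theorem dvd_sub_one {D p : ℕ} [Fact p.Prime] (hD : 0 < D) (R : Subring ℂ) (φ : R →+* ZMod p)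
    (ζ : ℂ) (hζ : IsPrimitiveRoot ζ D) (h1 : ζ ∈ R) (h2 : ∀ j < D, (1 - ζ ^ j)⁻¹ ∈ R) :
    D ∣ p - 1 := by
  set z : R := ⟨ζ, h1⟩ with hz
  have hzD : z ^ D = 1 := by
    apply Subtype.ext
    simpa [hz] using hζ.pow_eq_one
  have hφD : φ z ^ D = 1 := by rw [← map_pow, hzD, map_one]
  have hφ0 : φ z ≠ 0 := by
    intro h
    rw [h, zero_pow hD.ne'] at hφD
    exact zero_ne_one hφD
  have hne : ∀ j : ℕ, 0 < j → j < D → φ z ^ j ≠ 1 := by
    intro j hj0 hjD hj
    have h3 : (1 - ζ ^ j) ≠ 0 := by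
      intro h
      exact hζ.pow_ne_one_of_pos_of_lt hj0.ne' hjD (by linear_combination -h)
    have h4 : (1 - z ^ j) * ⟨(1 - ζ ^ j)⁻¹, h2 j hjD⟩ = 1 := by
      apply Subtype.ext
      simp [hz, h3]
    have h5 := congrArg φ h4
    rw [map_mul, map_sub, map_one, map_pow, hj, sub_self, zero_mul] at h5
    exact zero_ne_one h5
  have horder : orderOf (φ z) = D := by
    rw [orderOf_eq_iff hD]
    exact ⟨hφD, fun m hm hm0 => hne m hm0 hm⟩
  rw [← horder]
  exact ZMod.orderOf_dvd_card_sub_one hφ0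

/-- The case of a constant polynomial. -/
theorem constant_case (f : MvPolynomial (Fin n) ℂ) (hf : f ≠ 0) (hD : maxExp f = 0) (m : ℕ) :
    ∫ x in Set.Icc (0 : Fin n → ℝ) 1,
      (MvPolynomial.eval (fun i => ((x i : ℝ) : ℂ)) f) ^ m ≠ 0 := by
  have h1 : f = C (coeff 0 f) := by
    ext e
    rw [coeff_C]
    split_ifs with h
    · rw [h]
    · by_contra hne
      apply h
      ext i
      have := le_maxExp f e (mem_support_iff.mpr hne) i
      rw [hD] at this
      rw [Finsupp.zero_apply]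
      omega
  have h2 : coeff 0 f ≠ 0 := by
    intro h
    rw [h, C_0] at h1
    exact hf h1
  rw [h1]
  simp only [eval_C]
  rw [setIntegral_const]
  have h3 : (volume : Measure (Fin n → ℝ)).real (Set.Icc (0 : Fin n → ℝ) 1) = 1 := by
    rw [Measure.real, Real.volume_Icc_pi]
    simp
  rw [h3, one_smul]
  exact pow_ne_zero _ h2

theorem map_ne_zero_of_inv {p : ℕ} [Fact p.Prime] (R : Subring ℂ) (φ : R →+* ZMod p) (z : ℂ)
    (hz : z ∈ R) (hz' : z⁻¹ ∈ R) (h0 : z ≠ 0) : φ ⟨z, hz⟩ ≠ 0 := by
  intro h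
  have h1 : (⟨z, hz⟩ : R) * ⟨z⁻¹, hz'⟩ = 1 := by
    apply Subtype.ext
    simp [h0]
  have h2 := congrArg φ h1
  rw [map_mul, h, zero_mul, map_one] at h2
  exact zero_ne_one h2

/-- The contribution of one set `S` of top variables. -/
theorem single_set (f : MvPolynomial (Fin n) ℂ) (S : Finset (Fin n))
    (hS : S.card = topCount f) (ha : topCofactor f S ≠ 0) (c : ℂ) (b : Fin n → Fin n)
    (α β : Fin n → ℂ) (k : Fin n → ℕ)
    (hrep : topCofactor f S = C c * ∏ j, (C (α j) + ∑ i with b i = j, C (β i) * X i) ^ k j)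
    (hD : 0 < maxExp f) {p : ℕ} [Fact p.Prime] (m : ℕ) (hDm : maxExp f * m = p - 1)
    (hm : n ≤ m) (hm0 : 0 < m) (R : Subring ℂ) (φ : R →+* ZMod p)
    (lam : ZMod p → ZMod p) (h0 : lam 0 = 0)
    (hlam : ∀ e ≤ p - 2, ∑ u, lam u * u ^ e = ((e : ZMod p) + 1)⁻¹)
    (f' : MvPolynomial (Fin n) R) (hf' : map R.subtype f' = f)
    (rc : ℂ) (hrc : rc ^ maxExp f = c) (rcR : rc ∈ R) (rcR' : rc⁻¹ ∈ R)
    (hα : ∀ j, α j ∈ R) (hα' : ∀ j, (α j)⁻¹ ∈ R)
    (hβ : ∀ i, β i ∈ R) (hβ' : ∀ i, (β i)⁻¹ ∈ R)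
    (w : (Fin n → Bool) → Fin n → ℂ)
    (hw : ∀ ε j, w ε j ^ maxExp f
      = α j + ∑ i, if b i = j then (if ε i then β i else 0) else 0)
    (hwR : ∀ ε j, w ε j ∈ R) (q : ℂ)
    (hq : q * (∏ j, ∏ r ∈ Finset.range (blockCount b β j),
        ((maxExp f : ℂ) * ((r : ℂ) + 1) - k j))
      = ∏ j, ∏ r ∈ Finset.range (blockCount b β j), ((maxExp f : ℂ) * ((r : ℂ) + 1)))
    (hqR : q ∈ R) :
    ∑ y : Fin n → ZMod p, (∏ i, lam (y i)) *
      eval y ((topPart S (maxExp f) (map φ f')) ^ m) = φ ⟨q, hqR⟩ := by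
  classical
  have hpp : p.Prime := Fact.out
  have hp2 := hpp.two_le
  set D := maxExp f with hDdef
  have hcne : c ≠ 0 := by
    rintro rfl
    rw [C_0, zero_mul] at hrep
    exact ha hrep
  have hrcne : rc ≠ 0 := by
    rintro rfl
    rw [zero_pow hD.ne'] at hrc
    exact hcne hrc.symm
  -- the block sizes
  have hcount : ∀ j, blockCount b (fun i => φ ⟨β i, hβ i⟩) j = blockCount b β j := by
    intro j
    unfold blockCount
    refine Finset.sum_congr rfl fun i _ => ?_
    have : φ ⟨β i, hβ i⟩ ≠ 0 ↔ β i ≠ 0 := by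
      constructor
      · intro h1 h2
        apply h1
        have : (⟨β i, hβ i⟩ : R) = 0 := Subtype.ext h2
        rw [this, map_zero]
      · exact map_ne_zero_of_inv R φ _ (hβ i) (hβ' i)
    simp only [this]
  have hcount_le : ∀ j, blockCount b β j ≤ n := by
    intro j
    unfold blockCount
    calc ∑ i, (if b i = j ∧ β i ≠ 0 then 1 else 0) ≤ ∑ i : Fin n, 1 :=
          Finset.sum_le_sum fun i _ => by split_ifs <;> simp
      _ = n := by simp
  have hcount_pos : ∀ j, 0 < blockCount b β j → k j < D := by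
    intro j hj
    unfold blockCount at hj
    obtain ⟨i, _, hi⟩ := Finset.exists_ne_zero_of_sum_ne_zero hj.ne'
    have hi' : b i = j ∧ β i ≠ 0 := by
      by_contra hne
      rw [if_neg hne] at hi
      exact hi rfl
    rw [← hi'.1]
    exact exponent_lt f S hS ha c b α β k hrep hD i hi'.2
  -- the factorization over the subring
  have hR : topPart S D f' = (∏ i ∈ S, X i ^ D) * (C (⟨rc, rcR⟩ ^ D) *
      ∏ j, (C ⟨α j, hα j⟩ + ∑ i with b i = j, C ⟨β i, hβ i⟩ * X i) ^ k j) := by
    apply map_injective R.subtype Subtype.val_injective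
    rw [← topPart_map, hf', topPart_eq_mul, hrep]
    simp only [map_mul, map_prod, map_pow, map_add, map_sum, map_X, map_C, Subring.subtype_apply]
    rw [← C_pow, hrc]
  have hG : topPart S D (map φ f') = (∏ i ∈ S, X i ^ D) * (C (φ ⟨rc, rcR⟩ ^ D) *
      ∏ j, (C (φ ⟨α j, hα j⟩) + ∑ i with b i = j, C (φ ⟨β i, hβ i⟩) * X i) ^ k j) := by
    rw [topPart_map, hR]
    simp only [map_mul, map_prod, map_pow, map_add, map_sum, map_X, map_C]
  have hc1 : (φ ⟨rc, rcR⟩ ^ D) ^ m = 1 := by
    rw [← pow_mul, hDm]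
    exact ZMod.pow_card_sub_one_eq_one (map_ne_zero_of_inv R φ _ rcR rcR' hrcne)
  have hK : ∀ j, 0 < blockCount b (fun i => φ ⟨β i, hβ i⟩) j →
      k j * m + blockCount b (fun i => φ ⟨β i, hβ i⟩) j ≤ p - 1 := by
    intro j hj
    rw [hcount] at hj ⊢
    have h1 := hcount_pos j hj
    have h2 := hcount_le j
    have h3 : (k j + 1) * m ≤ D * m := Nat.mul_le_mul_right _ h1
    rw [add_mul, one_mul] at h3
    omega
  have hv : ∀ (ε : Fin n → Bool) (j : Fin n),
      (φ ⟨α j, hα j⟩ + ∑ i, if b i = j then (if ε i then φ ⟨β i, hβ i⟩ else 0) else 0) ^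
        (k j * m + blockCount b (fun i => φ ⟨β i, hβ i⟩) j)
      = (φ ⟨α j, hα j⟩ + ∑ i, if b i = j then (if ε i then φ ⟨β i, hβ i⟩ else 0) else 0) ^
        (blockCount b (fun i => φ ⟨β i, hβ i⟩) j) := by
    intro ε j
    have h1 : φ ⟨α j, hα j⟩ + (∑ i, if b i = j then (if ε i then φ ⟨β i, hβ i⟩ else 0) else 0)
        = (φ ⟨w ε j, hwR ε j⟩) ^ D := by
      rw [← map_pow]
      have h2 : (⟨w ε j, hwR ε j⟩ : R) ^ D = ⟨α j, hα j⟩ +
          ∑ i, if b i = j then (if ε i then (⟨β i, hβ i⟩ : R) else 0) else 0 := by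
        apply Subtype.ext
        rw [Subring.coe_pow, Subring.coe_add]
        simp only
        rw [hw ε j]
        congr 1
        rw [AddSubmonoidClass.coe_finsetSum]
        refine Finset.sum_congr rfl fun i _ => ?_
        split_ifs <;> rfl
      rw [h2, map_add, map_sum]
      congr 1
      refine Finset.sum_congr rfl fun i _ => ?_
      split_ifs
      · rfl
      · rw [map_zero]
      · rw [map_zero]
    rw [h1, hcount]
    by_cases hz : φ ⟨w ε j, hwR ε j⟩ = 0
    · rw [hz, zero_pow hD.ne']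
      rcases Nat.eq_zero_or_pos (blockCount b β j) with ht | ht
      · -- the form is constant
        have hβz : ∀ i, b i = j → β i = 0 := by
          intro i hi
          by_contra hne
          unfold blockCount at ht
          have h2 := (Finset.sum_eq_zero_iff.mp ht) i (Finset.mem_univ i)
          rw [if_pos ⟨hi, hne⟩] at h2
          exact one_ne_zero h2
        have hαz : α j = 0 := by
          by_contra hne
          have h2 := map_ne_zero_of_inv R φ _ (hα j) (hα' j) hne
          apply h2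
          have h3 : ∑ i, (if b i = j then (if ε i then φ ⟨β i, hβ i⟩ else 0) else 0) = 0 := by
            refine Finset.sum_eq_zero fun i _ => ?_
            split_ifs with h4 h5
            · have : (⟨β i, hβ i⟩ : R) = 0 := Subtype.ext (hβz i h4)
              rw [this, map_zero]
            · rfl
            · rfl
          rw [h3, add_zero, hz, zero_pow hD.ne'] at h1
          exact h1
        have hkj : k j = 0 := by
          by_contra hne
          apply ha
          rw [hrep, Finset.prod_eq_zero (Finset.mem_univ j), mul_zero]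
          rw [hαz, C_0, zero_add, Finset.sum_eq_zero, zero_pow hne]
          intro i hi
          rw [hβz i (Finset.mem_filter.mp hi).2, C_0, zero_mul]
        rw [hkj, zero_mul, zero_add]
      · rw [zero_pow (by omega), zero_pow (by omega)]
    · rw [pow_add]
      have h2 : ((φ ⟨w ε j, hwR ε j⟩) ^ D) ^ (k j * m) = 1 := by
        rw [← pow_mul]
        have : D * (k j * m) = (p - 1) * k j := by rw [← hDm]; ring
        rw [this, pow_mul, ZMod.pow_card_sub_one_eq_one hz, one_pow]
      rw [h2, one_mul]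
  have hfun := functional_product lam h0 hlam S D m hDm _ _ b _ _ k hG hc1 hK hv
  simp only [hcount] at hfun
  -- compare with `q`
  have hq' : φ ⟨q, hqR⟩ * (∏ j, ∏ r ∈ Finset.range (blockCount b β j),
        ((D : ZMod p) * ((r : ZMod p) + 1) - k j))
      = ∏ j, ∏ r ∈ Finset.range (blockCount b β j), ((D : ZMod p) * ((r : ZMod p) + 1)) := by
    have h1 : (⟨q, hqR⟩ : R) * (∏ j, ∏ r ∈ Finset.range (blockCount b β j),
        ((D : R) * ((r : R) + 1) - k j))
        = ∏ j, ∏ r ∈ Finset.range (blockCount b β j), ((D : R) * ((r : R) + 1)) := by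
      apply Subtype.val_injective
      have := hq
      push_cast
      exact this
    have h2 := congrArg φ h1
    simpa only [map_mul, map_prod, map_sub, map_add, map_natCast, map_one] using h2
  have hA : ∏ j, ∏ r ∈ Finset.range (blockCount b β j), ((D : ZMod p) * ((r : ZMod p) + 1))
      ≠ 0 := by
    refine Finset.prod_ne_zero_iff.mpr fun j _ => Finset.prod_ne_zero_iff.mpr fun r hr => ?_
    have hr' := Finset.mem_range.mp hr
    have h2 := hcount_le j
    have hDp : D ≤ p - 1 := by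
      rw [← hDm]
      exact Nat.le_mul_of_pos_right _ hm0
    have hmp : m ≤ p - 1 := by
      rw [← hDm]
      exact Nat.le_mul_of_pos_left _ hD
    refine mul_ne_zero ?_ ?_
    · intro h
      rw [ZMod.natCast_eq_zero_iff] at h
      have := Nat.le_of_dvd hD h
      omega
    · intro h
      have h3 : ((r + 1 : ℕ) : ZMod p) = 0 := by push_cast; exact h
      rw [ZMod.natCast_eq_zero_iff] at h3
      have := Nat.le_of_dvd (Nat.succ_pos r) h3
      omega
  have hB : ∏ j, ∏ r ∈ Finset.range (blockCount b β j),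
      ((D : ZMod p) * ((r : ZMod p) + 1) - k j) ≠ 0 := by
    intro h
    rw [h, mul_zero] at hq'
    exact hA hq'.symm
  exact mul_right_cancel₀ hB (hfun.trans hq'.symm)

theorem exists_top (f : MvPolynomial (Fin n) ℂ) (hf : f ≠ 0) :
    ∃ S : Finset (Fin n), S.card = topCount f ∧ topCofactor f S ≠ 0 := by
  classical
  have hne : f.support.Nonempty := by
    rw [Finset.nonempty_iff_ne_empty]
    intro h
    exact hf (support_eq_empty.mp h)
  obtain ⟨e, he, hcard⟩ := Finset.exists_mem_eq_sup f.support hne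
    (fun e : Fin n →₀ ℕ => (Finset.univ.filter fun i => e i = maxExp f).card)
  refine ⟨Finset.univ.filter fun i => e i = maxExp f, ?_, ?_⟩
  · rw [topCount, hcard]
  · intro h
    have h1 := topPart_eq_mul f (Finset.univ.filter fun i => e i = maxExp f)
    rw [h, mul_zero] at h1
    have h2 := coeff_topPart (Finset.univ.filter fun i => e i = maxExp f) (maxExp f) f e
    rw [h1, coeff_zero, if_pos] at h2
    · exact (mem_support_iff.mp he) h2.symm
    · intro i hi
      exact (Finset.mem_filter.mp hi).2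

theorem main (f : MvPolynomial (Fin n) ℂ) (hf : f ≠ 0)
    (h : ∀ S : Finset (Fin n), S.card = topCount f → IsProductOfAffinePowers (topCofactor f S))
    (M : ℕ) : ∃ m ≥ M, ∫ x in Set.Icc (0 : Fin n → ℝ) 1,
      (MvPolynomial.eval (fun i => ((x i : ℝ) : ℂ)) f) ^ m ≠ 0 := by
  classical
  rcases Nat.eq_zero_or_pos (maxExp f) with hD0 | hD
  · exact ⟨M, le_rfl, constant_case f hf hD0 M⟩
  by_contra hcon
  push Not at hcon
  unfold IsProductOfAffinePowers at h
  have _ : Nonempty (Fin n → Fin n) := ⟨id⟩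
  choose! c b α β k hrep using h
  choose root hroot using fun z : ℂ => IsAlgClosed.exists_pow_nat_eq z hD
  -- the numbers attached to the sets `S`
  let vert : Finset (Fin n) → (Fin n → Bool) → Fin n → ℂ := fun S ε j =>
    α S j + ∑ i, if b S i = j then (if ε i then β S i else 0) else 0
  let qr : Finset (Fin n) → ℝ := fun S => ∏ j, ∏ r ∈ Finset.range (blockCount (b S) (β S) j),
    ((maxExp f : ℝ) * ((r : ℝ) + 1)) / ((maxExp f : ℝ) * ((r : ℝ) + 1) - k S j)
  let P := (Finset.powersetCard (topCount f) (Finset.univ : Finset (Fin n))).filter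
    fun S => topCofactor f S ≠ 0
  have hpos : ∀ S ∈ P, ∀ j, ∀ r ∈ Finset.range (blockCount (b S) (β S) j),
      0 < (maxExp f : ℝ) * ((r : ℝ) + 1) - k S j := by
    intro S hS j r hr
    have hS' := Finset.mem_filter.mp hS
    have hcard := (Finset.mem_powersetCard.mp hS'.1).2
    have hj : 0 < blockCount (b S) (β S) j := by
      have := Finset.mem_range.mp hr
      omega
    unfold blockCount at hj
    obtain ⟨i, _, hi⟩ := Finset.exists_ne_zero_of_sum_ne_zero hj.ne'
    have hi' : b S i = j ∧ β S i ≠ 0 := by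
      by_contra hne
      rw [if_neg hne] at hi
      exact hi rfl
    have h1 := exponent_lt f S hcard hS'.2 (c S) (b S) (α S) (β S) (k S) (hrep S hcard) hD i hi'.2
    rw [hi'.1] at h1
    have h2 : (k S j : ℝ) < maxExp f := by exact_mod_cast h1
    have h3 : (0 : ℝ) ≤ r := Nat.cast_nonneg r
    have h4 : (0 : ℝ) ≤ maxExp f := Nat.cast_nonneg _
    nlinarith
  have hqr_pos : ∀ S ∈ P, 0 < qr S := by
    intro S hS
    refine Finset.prod_pos fun j _ => Finset.prod_pos fun r hr => ?_
    refine div_pos ?_ (hpos S hS j r hr)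
    have h4 : (0 : ℝ) < maxExp f := by exact_mod_cast hD
    positivity
  have hP : P.Nonempty := by
    obtain ⟨S, hS, hS'⟩ := exists_top f hf
    exact ⟨S, Finset.mem_filter.mpr
      ⟨Finset.mem_powersetCard.mpr ⟨Finset.subset_univ _, hS⟩, hS'⟩⟩
  have hQr : 0 < ∑ S ∈ P, qr S := Finset.sum_pos hqr_pos hP
  have hQ : ∑ S ∈ P, ((qr S : ℝ) : ℂ) ≠ 0 := by
    rw [← Complex.ofReal_sum]
    exact_mod_cast hQr.ne'
  set Q : ℂ := ∑ S ∈ P, ((qr S : ℝ) : ℂ) with hQdef
  have hζ := Complex.isPrimitiveRoot_exp (maxExp f) hD.ne'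
  set ζ : ℂ := Complex.exp (2 * Real.pi * Complex.I / (maxExp f : ℕ)) with hζdef
  -- the finite set of generators
  let A : Set ℂ := (Set.range fun e : f.support => coeff e.1 f) ∪
    (Set.range fun S : Finset (Fin n) => root (c S)) ∪
    (Set.range fun S : Finset (Fin n) => (root (c S))⁻¹) ∪
    (Set.range fun x : Finset (Fin n) × Fin n => α x.1 x.2) ∪
    (Set.range fun x : Finset (Fin n) × Fin n => (α x.1 x.2)⁻¹) ∪
    (Set.range fun x : Finset (Fin n) × Fin n => β x.1 x.2) ∪
    (Set.range fun x : Finset (Fin n) × Fin n => (β x.1 x.2)⁻¹) ∪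
    (Set.range fun x : Finset (Fin n) × (Fin n → Bool) × Fin n => root (vert x.1 x.2.1 x.2.2)) ∪
    (Set.range fun S : Finset (Fin n) => ((qr S : ℝ) : ℂ)) ∪
    {Q⁻¹} ∪ {ζ} ∪ (Set.range fun j : Fin (maxExp f) => (1 - ζ ^ (j : ℕ))⁻¹)
  have hAfin : A.Finite := Set.toFinite _
  obtain ⟨p, hpp, hBp, R, hAR, ⟨φ⟩⟩ := exists_prime_subring A hAfin (maxExp f * (M + n + 1) + 1)
  have : Fact p.Prime := ⟨hpp⟩
  have hp2 := hpp.two_le
  simp only [A, Set.union_subset_iff, Set.range_subset_iff, Set.singleton_subset_iff,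
    Prod.forall, Subtype.forall, SetLike.mem_coe] at hAR
  obtain ⟨⟨⟨⟨⟨⟨⟨⟨⟨⟨⟨hcf, hrc⟩, hrc'⟩, hα⟩, hα'⟩, hβ⟩, hβ'⟩, hvert⟩, hqR⟩, hQR⟩, hζR⟩, hζR'⟩ := hAR
  obtain ⟨m, hDm'⟩ := dvd_sub_one hD R φ ζ hζ hζR (fun j hj => hζR' ⟨j, hj⟩)
  have hDm : maxExp f * m = p - 1 := hDm'.symm
  have hmge : M + n + 1 ≤ m := by
    by_contra hlt
    rw [not_le] at hlt
    have := Nat.mul_lt_mul_of_pos_left hlt hD
    omega
  -- lift `f`
  obtain ⟨f', hf'⟩ : ∃ f' : MvPolynomial (Fin n) R, map R.subtype f' = f := by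
    have : f ∈ Set.range (MvPolynomial.map (σ := Fin n) R.subtype) := by
      rw [mem_range_map_iff_coeffs_subset]
      intro z hz
      rw [Finset.mem_coe, mem_coeffs_iff] at hz
      obtain ⟨e, he, rfl⟩ := hz
      exact ⟨⟨coeff e f, hcf e he⟩, rfl⟩
    exact this
  have hinj : Function.Injective R.subtype := Subtype.val_injective
  have hsupp : f'.support = f.support := by
    rw [← hf', support_map_of_injective _ hinj]
  have hf1 : ∀ e ∈ f'.support, ∀ i, e i ≤ maxExp f := by
    intro e he i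
    rw [hsupp] at he
    exact le_maxExp f e he i
  have hf2 : ∀ e ∈ f'.support,
      (Finset.univ.filter fun i => e i = maxExp f).card ≤ topCount f := by
    intro e he
    rw [hsupp] at he
    exact card_le_topCount f e he
  have hg1 : ∀ e ∈ (f' ^ m).support, ∀ i, e i ≤ p - 1 := by
    intro e he i
    rw [← hDm]
    exact support_pow_le Finset.univ (maxExp f) f' (fun e he i _ => hf1 e he i) m e he i
      (Finset.mem_univ i)
  have hg2 := count_le f' (maxExp f) (topCount f) m (by omega) hf1 hf2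
  have hpow : map R.subtype (f' ^ m) = f ^ m := by rw [map_pow, hf']
  have hint : ∑ e ∈ (f' ^ m).support, R.subtype (coeff e (f' ^ m)) *
      ∏ i, ((e i : ℂ) + 1)⁻¹ = 0 := by
    have h1 := hcon m (by omega)
    simp_rw [← map_pow] at h1
    rw [integral_cube, ← hpow, support_map_of_injective _ hinj] at h1
    rw [← h1]
    exact Finset.sum_congr rfl fun e _ => by rw [coeff_map]
  obtain ⟨lam, h0, hlam⟩ := exists_weight p
  rw [hDm] at hg2
  have hred := reduction R.subtype hinj φ lam h0 hlam (f' ^ m) (topCount f) hg1 hg2 hint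
  rw [← hDm, grouped φ f' (maxExp f) m (topCount f) (by omega) hf1 hf2] at hred
  have hzero : ∀ S ∈ Finset.powersetCard (topCount f) (Finset.univ : Finset (Fin n)),
      ∑ e ∈ ((topPart S (maxExp f) (map φ f')) ^ m).support,
        coeff e ((topPart S (maxExp f) (map φ f')) ^ m) * ∏ i, ∑ u, lam u * u ^ e i
      = if topCofactor f S ≠ 0 then φ ⟨((qr S : ℝ) : ℂ), hqR S⟩ else 0 := by
    intro S hS
    have hcard := (Finset.mem_powersetCard.mp hS).2
    rw [← functional_eq]
    split_ifs with hne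
    · have hSP : S ∈ P := Finset.mem_filter.mpr ⟨hS, hne⟩
      refine single_set f S hcard hne (c S) (b S) (α S) (β S) (k S) (hrep S hcard) hD m hDm
        (by omega) (by omega) R φ lam h0 hlam f' hf' (root (c S)) (hroot _) (hrc S) (hrc' S)
        (hα S) (hα' S) (hβ S) (hβ' S) (fun ε j => root (vert S ε j)) (fun ε j => hroot _)
        (fun ε j => hvert S ε j) _ ?_ (hqR S)
      rw [Complex.ofReal_prod, ← Finset.prod_mul_distrib]
      refine Finset.prod_congr rfl fun j _ => ?_
      rw [Complex.ofReal_prod, ← Finset.prod_mul_distrib]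
      refine Finset.prod_congr rfl fun r hr => ?_
      have h1 := (hpos S hSP j r hr).ne'
      have h2 : ((maxExp f : ℂ) * ((r : ℂ) + 1) - k S j) ≠ 0 := by
        intro h3
        apply h1
        exact_mod_cast h3
      push_cast
      rw [div_mul_cancel₀ _ h2]
    · have h1 : topPart S (maxExp f) f' = 0 := by
        apply map_injective R.subtype hinj
        rw [← topPart_map, hf', topPart_eq_mul, not_not.mp hne, mul_zero, map_zero]
      rw [topPart_map, h1, map_zero, zero_pow (by omega)]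
      simp
  rw [Finset.sum_congr rfl hzero, ← Finset.sum_filter] at hred
  have h1 : ((∑ S ∈ P, (⟨((qr S : ℝ) : ℂ), hqR S⟩ : R)) : R) = ⟨Q, by
      rw [hQdef]
      exact Subring.sum_mem _ fun S _ => hqR S⟩ := by
    apply Subtype.ext
    rw [AddSubmonoidClass.coe_finsetSum]
  have h2 := map_ne_zero_of_inv R φ Q (by
      rw [hQdef]
      exact Subring.sum_mem _ fun S _ => hqR S) hQR hQ
  apply h2
  rw [← h1, map_sum]
  exact hred

end Pool.Agent.Helper86Cube
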