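import Mathlib

/-!
# Reduction of finitely generated subrings of a field of characteristic zero modulo primes

For every finite subset `s` of a field `F` of characteristic zero and every bound `B` there are
a prime `p > B` and a ring homomorphism from the subring generated by `s` to `ZMod p`.
-/

namespace Pool.Agent.Helper86Cube

open Polynomial

/-- A nonconstant integer polynomial has values divisible by arbitrarily large primes. -/
theorem exists_prime_dvd_eval (g : ℤ[X]) (hg : 1 ≤ g.natDegree) (B : ℕ) :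
    ∃ p : ℕ, p.Prime ∧ B < p ∧ ∃ t : ℤ, (p : ℤ) ∣ g.eval t := by
  classical
  by_cases h0 : g.eval 0 = 0
  · obtain ⟨p, hp, hpp⟩ := Nat.exists_infinite_primes (B + 1)
    exact ⟨p, hpp, hp, 0, by rw [h0]; exact dvd_zero _⟩
  · set c : ℤ := g.eval 0 with hc
    -- find `y` with `|g(c B! y)| > |c|`
    have hinf : ∃ y : ℤ, |c| < |g.eval (c * (B.factorial : ℤ) * y)| := by
      by_contra hcon
      push Not at hcon
      have hcB : c * (B.factorial : ℤ) ≠ 0 :=
        mul_ne_zero h0 (by exact_mod_cast Nat.factorial_ne_zero B)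
      -- pigeonhole: infinitely many `y` and finitely many values
      have hfin : (Set.range fun y : ℤ => g.eval (c * (B.factorial : ℤ) * y)).Finite := by
        apply (Set.finite_Icc (-|c|) |c|).subset
        rintro _ ⟨y, rfl⟩
        exact abs_le.mp (hcon y)
      obtain ⟨v, hv⟩ : ∃ v : ℤ, ((fun y : ℤ => g.eval (c * (B.factorial : ℤ) * y)) ⁻¹' {v}).Infinite := by
        by_contra hall
        push Not at hall
        have : (Set.univ : Set ℤ).Finite := by
          have h1 : (Set.univ : Set ℤ) = ⋃ v ∈ (Set.range fun y : ℤ => g.eval (c * (B.factorial : ℤ) * y)),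
              (fun y : ℤ => g.eval (c * (B.factorial : ℤ) * y)) ⁻¹' {v} := by
            ext y
            simp only [Set.mem_univ, Set.mem_range, Set.mem_iUnion, Set.mem_preimage,
              Set.mem_singleton_iff, exists_prop, true_iff]
            exact ⟨_, ⟨y, rfl⟩, rfl⟩
          rw [h1]
          exact hfin.biUnion fun v _ => hall v
        exact Set.infinite_univ this
      have hroots : ((g - C v).rootSet ℤ).Infinite := by
        have himg : ((fun y : ℤ => c * (B.factorial : ℤ) * y) ''
            ((fun y : ℤ => g.eval (c * (B.factorial : ℤ) * y)) ⁻¹' {v})).Infinite :=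
          hv.image (by intro a _ b _ hab; exact mul_left_cancel₀ hcB hab)
        apply himg.mono
        rintro _ ⟨y, hy, rfl⟩
        rw [Polynomial.mem_rootSet]
        constructor
        · intro h
          have : g = C v := sub_eq_zero.mp h
          rw [this] at hg
          simp at hg
        · simp at hy
          simp [hy]
      exact hroots (Set.Finite.ofFinset (g - C v).roots.toFinset (by
        intro x
        rw [Polynomial.mem_rootSet']
        simp [Polynomial.mem_roots']))
    obtain ⟨y, hy⟩ := hinf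
    -- `g(c B! y) = c (1 + B! u)`
    have hdiv : c * (B.factorial : ℤ) * y - 0 ∣ g.eval (c * (B.factorial : ℤ) * y) - g.eval 0 :=
      Polynomial.sub_dvd_eval_sub _ _ g
    obtain ⟨w, hw⟩ := hdiv
    have hval : g.eval (c * (B.factorial : ℤ) * y) = c * (1 + (B.factorial : ℤ) * (y * w)) := by
      have : g.eval (c * (B.factorial : ℤ) * y) = g.eval 0 + (c * (B.factorial : ℤ) * y - 0) * w := by
        linarith
      rw [this, ← hc]; ring
    set u : ℤ := 1 + (B.factorial : ℤ) * (y * w) with hu
    have hu1 : 1 < |u| := by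
      rw [hval, abs_mul] at hy
      have hcpos : 0 < |c| := abs_pos.mpr h0
      nlinarith
    have hnat : u.natAbs ≠ 1 := by
      intro h
      have : |u| = 1 := by rw [Int.abs_eq_natAbs, h]; rfl
      omega
    obtain ⟨p, hpp, hpu⟩ := Nat.exists_prime_and_dvd hnat
    have hpu' : (p : ℤ) ∣ u := Int.natCast_dvd.mpr hpu
    refine ⟨p, hpp, ?_, c * (B.factorial : ℤ) * y, ?_⟩
    · by_contra hle
      push Not at hle
      have h1 : p ∣ B.factorial := (Nat.Prime.dvd_factorial hpp).mpr hle
      have h2 : (p : ℤ) ∣ (B.factorial : ℤ) * (y * w) :=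
        Dvd.dvd.mul_right (by exact_mod_cast h1) _
      have h3 : (p : ℤ) ∣ 1 := by
        have : (1 : ℤ) = u - (B.factorial : ℤ) * (y * w) := by rw [hu]; ring
        rw [this]
        exact dvd_sub hpu' h2
      exact hpp.one_lt.ne' (by exact_mod_cast Int.eq_one_of_dvd_one (by positivity) h3)
    · rw [hval]
      exact Dvd.dvd.mul_left hpu' _

/-- Clearing denominators in `ℚ[θ]`. -/
theorem exists_int_poly {L : Type*} [Field L] [Algebra ℚ L] (θ : L)
    (P : ℚ[X]) : ∃ N : ℤ, N ≠ 0 ∧ ∃ Q : ℤ[X], (N : L) * aeval θ P = aeval θ Q := by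
  obtain ⟨b, hbM, hb⟩ := IsLocalization.integerNormalization_spec (nonZeroDivisors ℤ) P
  refine ⟨b, nonZeroDivisors.ne_zero hbM, IsLocalization.integerNormalization (nonZeroDivisors ℤ) P, ?_⟩
  have h := congrArg (aeval θ) hb
  rw [aeval_map_algebraMap] at h
  rw [h]
  simp [Algebra.smul_def]

/-- The specialization lemma for number fields. -/
theorem exists_prime_ringHom_numberField {L : Type*} [Field L] [Algebra ℚ L] [Module.Finite ℚ L]
    (s : Finset L) (B : ℕ) :
    ∃ p : ℕ, p.Prime ∧ B < p ∧ Nonempty (Subring.closure (s : Set L) →+* ZMod p) := by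
  classical
  have : CharZero L := algebraRat.charZero L
  obtain ⟨θ₀, hθ₀⟩ := Field.exists_primitive_element ℚ L
  obtain ⟨b, hb0, hbint⟩ := IsAlgebraic.exists_integral_multiple (R := ℤ) (A := L)
    (z := θ₀) (by
      have : IsAlgebraic ℚ θ₀ := Algebra.IsAlgebraic.isAlgebraic θ₀
      exact (IsFractionRing.isAlgebraic_iff ℤ ℚ L).mpr this)
  set θ : L := b • θ₀ with hθ
  -- every element of `L` is `Q(θ) / N`
  have key : ∀ x : L, ∃ N : ℤ, N ≠ 0 ∧ ∃ Q : ℤ[X], (N : L) * x = aeval θ Q := by
    intro x
    have hx : x ∈ (IntermediateField.adjoin ℚ {θ₀}).toSubalgebra := by rw [hθ₀]; trivial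
    have halg : IsAlgebraic ℚ θ₀ := Algebra.IsAlgebraic.isAlgebraic θ₀
    rw [IntermediateField.adjoin_simple_toSubalgebra_of_isAlgebraic halg,
      Algebra.adjoin_singleton_eq_range_aeval] at hx
    obtain ⟨P, hP⟩ := hx
    have hP' : aeval θ (P.comp (C ((b : ℚ)⁻¹) * X)) = x := by
      rw [aeval_comp, ← hP]
      congr 2
      simp only [map_mul, aeval_C, aeval_X, hθ]
      rw [zsmul_eq_mul, map_inv₀, map_intCast, ← mul_assoc, inv_mul_cancel₀, one_mul]
      exact_mod_cast hb0
    rw [← hP']
    exact exists_int_poly θ _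
  choose N hN Q hQ using key
  set M : ℤ := ∏ x ∈ s, N x with hM
  have hM0 : M ≠ 0 := Finset.prod_ne_zero_iff.mpr fun x _ => hN x
  set g : ℤ[X] := minpoly ℤ θ with hg
  have hgdeg : 1 ≤ g.natDegree := minpoly.natDegree_pos hbint
  obtain ⟨p, hpp, hBp, t, ht⟩ := exists_prime_dvd_eval g hgdeg (max B M.natAbs)
  have : Fact p.Prime := ⟨hpp⟩
  have hMp : ((M : ℤ) : ZMod p) ≠ 0 := by
    intro h
    rw [ZMod.intCast_zmod_eq_zero_iff_dvd] at h
    have h1 := Int.natAbs_dvd_natAbs.mpr h
    simp only [Int.natAbs_natCast] at h1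
    have h2 := Nat.le_of_dvd (Int.natAbs_pos.mpr hM0) h1
    exact absurd (lt_of_le_of_lt (le_max_right B _) hBp) (not_lt.mpr h2)
  -- the local ring
  let R := AdjoinRoot g
  have hroot : eval₂ (Int.castRingHom L) θ g = 0 := by
    have := minpoly.aeval ℤ θ
    rwa [aeval_def] at this
  let j₀ : R →+* L := AdjoinRoot.lift (Int.castRingHom L) θ hroot
  have hj₀Q : ∀ q : ℤ[X], j₀ (AdjoinRoot.mk g q) = aeval θ q := by
    intro q
    simp only [j₀, aeval_def]
    rfl
  have hj₀ : Function.Injective j₀ := by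
    rw [injective_iff_map_eq_zero]
    intro x hx
    obtain ⟨q, rfl⟩ := AdjoinRoot.mk_surjective x
    rw [hj₀Q] at hx
    exact AdjoinRoot.mk_eq_zero.mpr ((minpoly.isIntegrallyClosed_dvd_iff hbint q).mp hx)
  have hrootp : eval₂ (Int.castRingHom (ZMod p)) (t : ZMod p) g = 0 := by
    have h1 : eval₂ (Int.castRingHom (ZMod p)) ((Int.castRingHom (ZMod p)) t) g
        = (Int.castRingHom (ZMod p)) (g.eval t) := by
      rw [eval₂_at_apply]
    rw [eq_intCast] at h1
    rw [h1, eq_intCast]
    exact (ZMod.intCast_zmod_eq_zero_iff_dvd _ _).mpr ht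
  let ψ₀ : R →+* ZMod p := AdjoinRoot.lift (Int.castRingHom (ZMod p)) (t : ZMod p) hrootp
  -- localise at `M`
  let Loc := Localization.Away ((M : ℤ) : R)
  let j : Loc →+* L := IsLocalization.Away.lift ((M : ℤ) : R) (g := j₀) (by
    rw [map_intCast]
    exact IsUnit.mk0 _ (by exact_mod_cast hM0))
  let ψ : Loc →+* ZMod p := IsLocalization.Away.lift ((M : ℤ) : R) (g := ψ₀) (by
    rw [map_intCast]
    exact IsUnit.mk0 _ hMp)
  have hjR : ∀ r : R, j (algebraMap R Loc r) = j₀ r := fun r =>
    IsLocalization.Away.lift_eq ((M : ℤ) : R) _ r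
  have hML : (M : L) ≠ 0 := by exact_mod_cast hM0
  have hj : Function.Injective j := by
    rw [injective_iff_map_eq_zero]
    intro x hx
    obtain ⟨⟨r, m⟩, h⟩ := IsLocalization.surj (Submonoid.powers ((M : ℤ) : R)) x
    have h1 : j₀ r = 0 := by
      rw [← hjR, ← h, map_mul, hx, zero_mul]
    have h2 : r = 0 := hj₀ (by rw [h1, map_zero])
    have h3 : x * algebraMap R Loc m = 0 := by
      rw [show x * algebraMap R Loc m = algebraMap R Loc r from h, h2, map_zero]
    exact (IsUnit.mul_left_eq_zero (IsLocalization.map_units Loc m)).mp h3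
  have hcl : Subring.closure (s : Set L) ≤ j.range := by
    rw [Subring.closure_le]
    intro x hx
    have hNx : N x ∣ M := Finset.dvd_prod_of_mem N hx
    obtain ⟨M', hM'⟩ := hNx
    have hu : IsUnit (algebraMap R Loc ((M : ℤ) : R)) :=
      IsLocalization.Away.algebraMap_isUnit ((M : ℤ) : R)
    obtain ⟨u, hu⟩ := hu
    refine ⟨algebraMap R Loc (AdjoinRoot.mk g (C M' * Q x)) * (↑(u⁻¹) : Loc), ?_⟩
    have h1 : j (↑u) * j (↑(u⁻¹) : Loc) = 1 := by
      rw [← map_mul, Units.mul_inv, map_one]
    have h2 : j (↑u) = (M : L) := by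
      rw [hu, hjR, map_intCast]
    rw [map_mul, hjR, hj₀Q]
    rw [h2] at h1
    have h3 : aeval θ (C M' * Q x) = (M : L) * x := by
      rw [map_mul, ← hQ x, hM']
      simp
      ring
    rw [h3]
    calc (M : L) * x * j (↑(u⁻¹) : Loc) = x * ((M : L) * j (↑(u⁻¹) : Loc)) := by ring
      _ = x := by rw [h1, mul_one]
  let e : Loc ≃+* j.range := RingEquiv.ofBijective j.rangeRestrict ⟨by
    intro x y hxy
    apply hj
    exact congrArg Subtype.val hxy, j.rangeRestrict_surjective⟩
  exact ⟨p, hpp, lt_of_le_of_lt (le_max_left _ _) hBp,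
    ⟨(ψ.comp (e.symm : j.range →+* Loc)).comp (Subring.inclusion hcl)⟩⟩

/-- A nontrivial finitely generated `ℚ`-algebra maps to a number field. -/
theorem exists_ringHom_numberField (A : Type*) [CommRing A] [Nontrivial A] [Algebra ℚ A]
    [Algebra.FiniteType ℚ A] :
    ∃ m : Ideal A, m.IsMaximal ∧ Module.Finite ℚ (A ⧸ m) := by
  obtain ⟨m, hm⟩ := Ideal.exists_maximal A
  let _ : Field (A ⧸ m) := Ideal.Quotient.field m
  exact ⟨m, hm, finite_of_finite_type_of_isJacobsonRing ℚ (A ⧸ m)⟩

/-- The specialization lemma for domains that embed in a finitely generated `ℚ`-algebra. -/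
theorem exists_prime_ringHom_algebra {A : Type*} [CommRing A] [Nontrivial A] [Algebra ℚ A]
    [Algebra.FiniteType ℚ A] (s : Finset A) (B : ℕ) :
    ∃ p : ℕ, p.Prime ∧ B < p ∧ Nonempty (Subring.closure (s : Set A) →+* ZMod p) := by
  classical
  obtain ⟨m, hm, hfin⟩ := exists_ringHom_numberField A
  let _ : Field (A ⧸ m) := Ideal.Quotient.field m
  let π : A →+* (A ⧸ m) := Ideal.Quotient.mk m
  obtain ⟨p, hpp, hBp, ⟨φ⟩⟩ := exists_prime_ringHom_numberField (s.image π) B
  refine ⟨p, hpp, hBp, ⟨?_⟩⟩
  have h2 : Subring.closure (s : Set A) ≤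
      (Subring.closure ((s.image π : Finset (A ⧸ m)) : Set (A ⧸ m))).comap π := by
    rw [Subring.closure_le]
    intro x hx
    apply Subring.subset_closure
    simp only [Finset.coe_image, Set.mem_image, Finset.mem_coe]
    exact ⟨x, hx, rfl⟩
  exact φ.comp ((π.comp (Subring.subtype _)).codRestrict _ fun x => h2 x.2)

/-- **Specialization lemma.** For a finite subset `s` of a field of characteristic zero and any
bound `B` there are a prime `p > B` and a ring homomorphism from the subring generated by `s`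
to `ZMod p`. -/
theorem exists_prime_ringHom {F : Type*} [Field F] [CharZero F] (s : Finset F) (B : ℕ) :
    ∃ p : ℕ, p.Prime ∧ B < p ∧ Nonempty (Subring.closure (s : Set F) →+* ZMod p) := by
  classical
  let A := Algebra.adjoin ℚ (s : Set F)
  have _ : Algebra.FiniteType ℚ A :=
    (Subalgebra.fg_iff_finiteType _).mp (Subalgebra.fg_adjoin_finset s)
  let s' : Finset A := s.attach.image fun x => ⟨x.1, Algebra.subset_adjoin x.2⟩
  obtain ⟨p, hpp, hBp, ⟨φ⟩⟩ := exists_prime_ringHom_algebra s' B
  refine ⟨p, hpp, hBp, ⟨?_⟩⟩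
  have h1 : Subring.closure (s : Set F) ≤
      (Subring.closure (s' : Set A)).map A.val.toRingHom := by
    rw [Subring.closure_le]
    intro x hx
    refine ⟨⟨x, Algebra.subset_adjoin hx⟩, Subring.subset_closure ?_, rfl⟩
    simp only [s', Finset.coe_image, Set.mem_image, Finset.mem_coe, Finset.mem_attach, true_and]
    exact ⟨⟨x, hx⟩, rfl⟩
  have hinj : Function.Injective (A.val.toRingHom) := Subtype.val_injective
  let e := (Subring.closure (s' : Set A)).equivMapOfInjective A.val.toRingHom hinj
  exact (φ.comp (e.symm : _ →+* Subring.closure (s' : Set A))).comp (Subring.inclusion h1)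

end Pool.Agent.Helper86Cube
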