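import Pool.Agent.Helper86_Cube.Defs

/-!
# Top parts of powers of a polynomial
-/

namespace Pool.Agent.Helper86Cube

open MvPolynomial

variable {σ : Type*} [DecidableEq σ] {R : Type*} [CommSemiring R]

/-- The sum of the terms of `g` in which every variable from `S` has exponent `d`. -/
noncomputable def topPart (S : Finset σ) (d : ℕ) (g : MvPolynomial σ R) : MvPolynomial σ R :=
  ∑ e ∈ g.support.filter (fun e => ∀ i ∈ S, e i = d), monomial e (coeff e g)

theorem coeff_topPart (S : Finset σ) (d : ℕ) (g : MvPolynomial σ R) (e : σ →₀ ℕ) :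
    coeff e (topPart S d g) = if ∀ i ∈ S, e i = d then coeff e g else 0 := by
  classical
  simp only [topPart, coeff_sum, coeff_monomial]
  rw [Finset.sum_ite_eq']
  simp only [Finset.mem_filter, mem_support_iff]
  by_cases h : coeff e g = 0
  · simp [h]
  · simp [h]

theorem support_pow_le (S : Finset σ) (d : ℕ) (g : MvPolynomial σ R)
    (hg : ∀ e ∈ g.support, ∀ i ∈ S, e i ≤ d) (m : ℕ) :
    ∀ e ∈ (g ^ m).support, ∀ i ∈ S, e i ≤ d * m := by
  classical
  induction m with
  | zero =>
    intro e he i _
    rw [pow_zero] at he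
    have : e = 0 := by
      by_contra hne
      rw [mem_support_iff, coeff_one, if_neg (fun h => hne h.symm)] at he
      exact he rfl
    rw [this]; simp
  | succ m ih =>
    intro e he i hi
    rw [pow_succ] at he
    have := support_mul (g ^ m) g he
    obtain ⟨a, ha, b, hb, rfl⟩ := Finset.mem_add.mp this
    have h1 := ih a ha i hi
    have h2 := hg b hb i hi
    rw [Finsupp.add_apply, Nat.mul_succ]
    omega

theorem coeff_topPart_pow (S : Finset σ) (d : ℕ) (g : MvPolynomial σ R)
    (hg : ∀ e ∈ g.support, ∀ i ∈ S, e i ≤ d) (m : ℕ) (e : σ →₀ ℕ) :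
    coeff e ((topPart S d g) ^ m) = if ∀ i ∈ S, e i = d * m then coeff e (g ^ m) else 0 := by
  classical
  induction m generalizing e with
  | zero =>
    simp only [pow_zero, mul_zero, coeff_one]
    by_cases h : 0 = e
    · rw [← h]; simp
    · simp [h]
  | succ m ih =>
    rw [pow_succ, coeff_mul, pow_succ, coeff_mul]
    split_ifs with h
    · refine Finset.sum_congr rfl fun x hx => ?_
      rw [ih, coeff_topPart]
      have hx' := Finset.HasAntidiagonal.mem_antidiagonal.mp hx
      by_cases h1 : coeff x.1 (g ^ m) = 0
      · rw [h1]; simp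
      by_cases h2 : coeff x.2 g = 0
      · rw [h2]; simp
      have hb1 := support_pow_le S d g hg m x.1 (mem_support_iff.mpr h1)
      have hb2 := hg x.2 (mem_support_iff.mpr h2)
      have hsum : ∀ i, x.1 i + x.2 i = e i := by
        intro i
        rw [← hx', Finsupp.add_apply]
      rw [if_pos, if_pos]
      · intro i hi
        have := hsum i
        have h3 := h i hi
        have h4 := hb1 i hi
        have h5 := hb2 i hi
        rw [Nat.mul_succ] at h3
        omega
      · intro i hi
        have := hsum i
        have h3 := h i hi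
        have h4 := hb1 i hi
        have h5 := hb2 i hi
        rw [Nat.mul_succ] at h3
        omega
    · refine Finset.sum_eq_zero fun x hx => ?_
      rw [ih, coeff_topPart]
      have hx' := Finset.HasAntidiagonal.mem_antidiagonal.mp hx
      by_cases h1 : ∀ i ∈ S, x.1 i = d * m
      · by_cases h2 : ∀ i ∈ S, x.2 i = d
        · exfalso
          apply h
          intro i hi
          rw [← hx', Finsupp.add_apply, h1 i hi, h2 i hi, Nat.mul_succ]
        · rw [if_neg h2, mul_zero]
      · rw [if_neg h1, zero_mul]

theorem topPart_map {R' : Type*} [CommSemiring R'] (φ : R →+* R') (S : Finset σ) (d : ℕ)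
    (g : MvPolynomial σ R) : topPart S d (map φ g) = map φ (topPart S d g) := by
  ext e
  rw [coeff_topPart, coeff_map, coeff_map, coeff_topPart]
  split_ifs
  · rfl
  · rw [map_zero]

theorem topPart_eq_mul {n : ℕ} (f : MvPolynomial (Fin n) ℂ) (S : Finset (Fin n)) :
    topPart S (maxExp f) f = (∏ i ∈ S, X i ^ maxExp f) * topCofactor f S := by
  classical
  rw [topPart, topCofactor, Finset.mul_sum]
  refine Finset.sum_congr (by congr) fun e he => ?_
  have he' := (Finset.mem_filter.mp he).2
  have h1 : (∏ i ∈ S, (X i : MvPolynomial (Fin n) ℂ) ^ maxExp f)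
      = monomial (∑ i ∈ S, Finsupp.single i (maxExp f)) 1 := by
    rw [monomial_sum_one]
    refine Finset.prod_congr rfl fun i _ => ?_
    rw [X_pow_eq_monomial]
  rw [h1, monomial_mul, one_mul]
  congr 1
  congr 1
  ext i
  rw [Finsupp.add_apply, Finsupp.finsetSum_apply]
  by_cases hi : i ∈ S
  · rw [Finsupp.filter_apply_neg _ _ (by simpa using hi), add_zero,
      Finset.sum_eq_single i]
    · rw [Finsupp.single_eq_same, he' i hi]
    · intro j _ hj
      rw [Finsupp.single_eq_of_ne (Ne.symm hj)]
    · intro h; exact absurd hi h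
  · rw [Finsupp.filter_apply_pos (fun i => i ∉ S) _ hi, Finset.sum_eq_zero, zero_add]
    intro j hj
    rw [Finsupp.single_eq_of_ne]
    rintro rfl
    exact hi hj

end Pool.Agent.Helper86Cube
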